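import Pool.Agent.Lib.MP_10e784_agBW.WO

/-! Block W in the form used by block P. -/

set_option autoImplicit false

open Classical

namespace HNW

open Finset Polynomial HNQ

theorem sub2_evB {K : Type} [Field K] (F : K[X][X]) (x y : PowerSeries K) :
    (F.map (mapRingHom (PowerSeries.C (R := K)))).evalEval x y = evB x y F := by
  have h : ((evalEvalRingHom x y).comp (mapRingHom (mapRingHom (PowerSeries.C (R := K)))) :
      K[X][X] →+* PowerSeries K) = evB x y := by
    refine hom_ext2 (fun c => ?_) ?_ ?_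
    · rw [evB_CC]
      simp
    · rw [evB_CX]; simp
    · rw [evB_X]; simp
  exact congrArg (fun φ : K[X][X] →+* PowerSeries K => φ F) h

/-- **Block W**: many points modulo `p` on a plane curve with the branch `(s, y(s))`. -/
theorem branch_points : ∃ C0 c0 : ℕ, ∀ (p n : ℕ) [Fact p.Prime], 1 ≤ n → C0 * n ^ c0 ≤ p →
    ∀ (F : (ZMod p)[X][X]) (y : PowerSeries (ZMod p)), F ≠ 0 → HNQ.TD n F →
      (F.map (mapRingHom (PowerSeries.C (R := ZMod p)))).evalEval PowerSeries.X y = 0 →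
      ∃ Z : Finset (ZMod p × ZMod p), (p : ℝ) / 2 ≤ Z.card ∧ (∀ z ∈ Z, F.evalEval z.1 z.2 = 0) ∧
        ∀ (m : ℕ) (G : (ZMod p)[X][X]), HNQ.TD m G →
          (G.map (mapRingHom (PowerSeries.C (R := ZMod p)))).evalEval PowerSeries.X y ≠ 0 →
          (Z.filter fun z => G.evalEval z.1 z.2 = 0).card ≤ n * (n + m) ^ 2 := by
  refine ⟨1000, 6, fun p n _ hn hp F y hF hT h0 => ?_⟩
  rw [sub2_evB] at h0
  obtain ⟨Z, h1, h2, h3⟩ := branch_pointsW p hn hp hF hT PowerSeries.X y (by
    rintro ⟨⟨c, hc⟩, -⟩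
    have h := congrArg (PowerSeries.coeff 1) hc
    rw [PowerSeries.coeff_one_X, PowerSeries.coeff_C, if_neg one_ne_zero] at h
    exact one_ne_zero h) h0
  refine ⟨Z, ?_, h2, fun m G hG hG0 => h3 m G hG (by rwa [sub2_evB] at hG0)⟩
  have h4 : (3 * p : ℝ) ≤ 4 * Z.card := by exact_mod_cast h1
  have h5 : (0 : ℝ) ≤ p := Nat.cast_nonneg p
  linarith

end HNW
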