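import Pool.Agent.Lib.MP_10e784_agBW.WDefs

/-! Total degrees and arrays of coefficients, any degree (see QS1, QS3 of MP_10e784_agQ for degree 4). -/

set_option autoImplicit false

open Classical

namespace HNW

open Finset Polynomial HNQ

variable {K : Type} [Field K]

theorem TD_DdW {f g : K[X][X]} {n m : ℕ} (hf : TD (n + 2) f) (hg : TD m g) : TD (m + n) (Dd f g) := by
  have h1 : TD (n + 1) (derivative f) := QS1_TD_der hf
  have h2 : TD (n + 1) (dX f) := QS1_TD_dX hf
  unfold HNQ.Dd
  rcases m with _ | m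
  · rw [QS1_dX_zero_of hg, QS1_der_zero_of hg, mul_zero, mul_zero, sub_zero]
    exact QS1_TD_zero _
  · have h3 : TD m (derivative g) := QS1_TD_der hg
    have h4 : TD m (dX g) := QS1_TD_dX hg
    have e : m + 1 + n = n + 1 + m := by omega
    rw [e]
    exact (h1.mul h4).sub (h2.mul h3)

theorem TD_DdW_iter {f g : K[X][X]} {n m : ℕ} (hf : TD (n + 2) f) (hg : TD m g) (k : ℕ) :
    TD (m + n * k) ((Dd f)^[k] g) := by
  induction k with
  | zero => simpa using hg
  | succ k ih =>
    rw [Function.iterate_succ_apply']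
    have e : m + n * (k + 1) = m + n * k + n := by ring
    rw [e]
    exact TD_DdW hf ih

theorem PW_add {n N : ℕ} (u u' : Fin n → Fin N → K) : PW (u + u') = PW u + PW u' := by
  simp only [PW, Pi.add_apply, map_add, Finset.sum_add_distrib]

theorem PW_smul {n N : ℕ} (c : K) (u : Fin n → Fin N → K) : PW (c • u) = C (C c) * PW u := by
  simp only [PW, Pi.smul_apply, smul_eq_mul, Finset.mul_sum, C_mul_monomial]

theorem coeff_PW {n N : ℕ} (u : Fin n → Fin N → K) (b a : ℕ) :
    ((PW u).coeff b).coeff a = if h : b < n ∧ a < N then u ⟨b, h.1⟩ ⟨a, h.2⟩ else 0 := by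
  simp only [PW, finsetSum_coeff, coeff_monomial]
  split_ifs with h
  · rw [Finset.sum_eq_single (⟨b, h.1⟩ : Fin n), Finset.sum_eq_single (⟨a, h.2⟩ : Fin N)]
    · simp
    · intro x _ hx
      have : (x : ℕ) ≠ a := fun e => hx (Fin.ext e)
      simp [coeff_monomial, this]
    · simp
    · intro x _ hx
      have : (x : ℕ) ≠ b := fun e => hx (Fin.ext e)
      simp [this]
    · simp
  · refine Finset.sum_eq_zero fun x _ => Finset.sum_eq_zero fun y _ => ?_
    by_cases h1 : (x : ℕ) = b
    · by_cases h2 : (y : ℕ) = a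
      · exact absurd ⟨h1 ▸ x.2, h2 ▸ y.2⟩ h
      · simp [h1, coeff_monomial, h2]
    · simp [h1]

theorem PW_degree {n N : ℕ} (u : Fin n → Fin N → K) : (PW u).degree < n := by
  refine (degree_lt_iff_coeff_zero (PW u) n).2 fun m hm => ?_
  ext a
  rw [coeff_PW, dif_neg (by omega)]
  simp

theorem PW_eq_zero {n N : ℕ} {u : Fin n → Fin N → K} (h : PW u = 0) : u = 0 := by
  funext b a
  have := coeff_PW u b a
  rw [h, dif_pos ⟨b.2, a.2⟩] at this
  simpa using this.symm

theorem TD_PW {n N : ℕ} (u : Fin n → Fin N → K) : TD (N + n) (PW u) := by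
  intro b hb
  have hb4 : b < n := by
    by_contra hc
    apply hb
    ext a
    rw [coeff_PW, dif_neg (by omega)]
    simp
  have hn : ((PW u).coeff b).natDegree < N := by
    by_contra hc
    apply hb
    rw [← leadingCoeff_eq_zero, leadingCoeff, coeff_PW, dif_neg (by omega)]
  omega

theorem cw_add {n N : ℕ} (g h : K[X][X]) : cw n N (g + h) = cw n N g + cw n N h := by
  funext b a
  simp [cw]

theorem cw_smul {n N : ℕ} (c : K) (g : K[X][X]) : cw n N (C (C c) * g) = c • cw n N g := by
  funext b a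
  simp [cw, coeff_C_mul]

theorem cw_eq_zero {n N m : ℕ} {g : K[X][X]} (hd : g.degree < n) (ht : TD m g) (hm : m < N)
    (h : cw n N g = 0) : g = 0 := by
  ext b a
  rw [coeff_zero, coeff_zero]
  by_cases hb : b < n
  · by_cases hc : g.coeff b = 0
    · rw [hc, coeff_zero]
    · have h1 := ht b hc
      by_cases ha : a < N
      · have := congrFun (congrFun h ⟨b, hb⟩) ⟨a, ha⟩
        simpa [cw] using this
      · exact coeff_eq_zero_of_natDegree_lt (by omega)
  · rw [(degree_lt_iff_coeff_zero g n).1 hd b (by omega), coeff_zero]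

end HNW
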