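import Pool.Agent.Lib.MP_10e784_agBW.WDefs

/-! LEAF WB.  Reduction modulo a monic polynomial of degree `n` and total degree `n`; the second root (models: QS3 of MP_10e784_agQ with 4 replaced by `n`). -/

set_option autoImplicit false

open Classical

namespace HNW

open Finset Polynomial HNQ

variable {K : Type} [Field K]

/-- the division with a bound for the total degree -/
private theorem WB_div {n : ℕ} (hn : 1 ≤ n) {f : K[X][X]} (hf : Qn n f) (N : ℕ) :
    ∀ (d : ℕ) (g : K[X][X]), g.natDegree ≤ d → TD N g →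
    ∃ q r : K[X][X], g = f * q + r ∧ r.degree < n ∧ TD N r := by
  intro d
  induction d with
  | zero =>
    intro g hg ht
    refine ⟨0, g, by ring, ?_, ht⟩
    exact lt_of_le_of_lt (degree_le_of_natDegree_le hg) (by exact_mod_cast hn)
  | succ d ih =>
    intro g hg ht
    by_cases h4 : g.degree < n
    · exact ⟨0, g, by ring, h4, ht⟩
    have hg0 : g ≠ 0 := by
      rintro rfl
      exact h4 (by rw [degree_zero]; exact WithBot.bot_lt_coe n)
    have hn4 : n ≤ g.natDegree := by
      by_contra hc
      apply h4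
      rw [degree_eq_natDegree hg0]
      exact_mod_cast (by omega : g.natDegree < n)
    set e := g.natDegree with he
    set t : K[X][X] := C (g.coeff e) * X ^ (e - n) with htdef
    have hlc : g.coeff e ≠ 0 := by
      rw [he]
      exact leadingCoeff_ne_zero.2 hg0
    have hTt : TD (N - n) t := by
      intro b hb
      rw [htdef, coeff_C_mul, coeff_X_pow] at hb ⊢
      split_ifs at hb ⊢ with hbe
      · have := ht e hlc
        rw [mul_one]
        omega
      · simp at hb
    have hnn : n ≤ N := by
      have := ht e hlc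
      omega
    have hT : TD N (f * t) := by
      have := (hf.td).mul hTt
      exact TD.mono this (by omega)
    have hsub : TD N (g - f * t) := TD.sub ht hT
    have hdeg : (g - f * t).natDegree ≤ d := by
      have hft : (f * t).natDegree ≤ e := by
        refine (natDegree_mul_le).trans ?_
        have h1 : t.natDegree ≤ e - n := by
          rw [htdef]
          exact natDegree_C_mul_X_pow_le _ _
        have h2 := hf.dg
        omega
      have hcoe : (f * t).coeff e = g.coeff e := by
        have h1 : (f * t).coeff (n + (e - n)) = f.coeff n * t.coeff (e - n) := by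
          apply coeff_mul_add_eq_of_natDegree_le
          · exact hf.dg.le
          · rw [htdef]
            exact natDegree_C_mul_X_pow_le _ _
        rw [show n + (e - n) = e by omega] at h1
        rw [h1]
        have h2 : f.coeff n = 1 := by
          have := hf.mo.coeff_natDegree
          rwa [hf.dg] at this
        rw [h2, htdef]
        simp
      rw [natDegree_le_iff_coeff_eq_zero]
      intro m hm
      rw [coeff_sub]
      rcases Nat.lt_or_ge e m with h1 | h1
      · rw [coeff_eq_zero_of_natDegree_lt (he ▸ h1),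
          coeff_eq_zero_of_natDegree_lt (lt_of_le_of_lt hft h1), sub_zero]
      · have : m = e := by omega
        rw [this, hcoe, sub_self]
    obtain ⟨q, r, h1, h2, h3⟩ := ih (g - f * t) hdeg hsub
    exact ⟨t + q, r, by linear_combination h1, h2, h3⟩

private theorem WB_deg {n : ℕ} {f : K[X][X]} (hf : Qn n f) : f.degree = n := by
  rw [degree_eq_natDegree hf.mo.ne_zero, hf.dg]

private theorem WB_one {f : K[X][X]} (hf : Qn 0 f) : f = 1 :=
  (Monic.natDegree_eq_zero hf.mo).1 hf.dg

/-- exchange of two sums -/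
private theorem WB_exch (F : ℕ → ℕ → K) (n : ℕ) :
    ∑ b ∈ range (n + 1), ∑ j ∈ range b, F b j
      = ∑ j ∈ range n, ∑ i ∈ range (n - j), F (j + 1 + i) j := by
  induction n with
  | zero => simp
  | succ n ih =>
    rw [Finset.sum_range_succ, ih]
    have h1 : ∀ j ∈ range (n + 1), ∑ i ∈ range (n + 1 - j), F (j + 1 + i) j
        = ∑ i ∈ range (n - j), F (j + 1 + i) j + F (n + 1) j := by
      intro j hj
      have hj' : j ≤ n := by
        have := Finset.mem_range.1 hj
        omega
      rw [show n + 1 - j = (n - j) + 1 by omega, Finset.sum_range_succ,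
        show j + 1 + (n - j) = n + 1 by omega]
    rw [Finset.sum_congr rfl h1, Finset.sum_add_distrib,
      Finset.sum_range_succ (fun j => ∑ i ∈ range (n - j), F (j + 1 + i) j) n]
    simp

private theorem WB_eval {n : ℕ} {f : K[X][X]} (hf : Qn n f) (x w : K) :
    f.evalEval x w = ∑ b ∈ range (n + 1), (f.coeff b).eval x * w ^ b := by
  have h1 : f.evalEval x w = ((f.eval (C w)).eval x) := rfl
  rw [h1, eval_eq_sum_range (p := f), hf.dg, eval_finsetSum]
  refine Finset.sum_congr rfl fun b _ => ?_
  simp

private theorem WB_gw {n : ℕ} (f : K[X][X]) (j : ℕ) (x y : K) :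
    (gw f n j).evalEval x y = ∑ i ∈ range (n - j), (f.coeff (j + 1 + i)).eval x * y ^ i := by
  have h1 : (gw f n j).evalEval x y = (((gw f n j).eval (C y)).eval x) := rfl
  rw [h1, gw, eval_finsetSum, eval_finsetSum]
  refine Finset.sum_congr rfl fun b _ => ?_
  simp

/-- Model: QS3_div, TD_mod in QS3: induction on the degree in `y`; `g - C (g.coeff d) * X ^ (d - n) * f`. -/
theorem TD_modW {n N : ℕ} {f g : K[X][X]} (hf : Qn n f) (hg : TD N g) : TD N (g %ₘ f) := by
  rcases Nat.eq_zero_or_pos n with hn | hn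
  · subst hn
    rw [WB_one hf, modByMonic_one]
    intro b hb
    simp at hb
  obtain ⟨q, r, h1, h2, h3⟩ := WB_div hn hf N _ g le_rfl hg
  have h4 : r + f * q = g := by rw [h1]; ring
  have := (div_modByMonic_unique q r hf.mo ⟨h4, by rw [WB_deg hf]; exact h2⟩).2
  rw [this]
  exact h3

theorem degree_modW {n : ℕ} {f : K[X][X]} (hf : Qn n f) (g : K[X][X]) : (g %ₘ f).degree < n := by
  rw [← WB_deg hf]
  exact degree_modByMonic_lt g hf.mo

/-- Proof. The coefficient `j + 1 + i` of `f` has degree `≤ n - (j + 1 + i)` (or is zero). -/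
theorem TD_gw {n : ℕ} {f : K[X][X]} (hf : Qn n f) (j : ℕ) : TD n (gw f n j) := by
  unfold gw
  refine TD.sum _ _ fun i hi => ?_
  have hi' : i < n - j := Finset.mem_range.1 hi
  have h1 : TD (n - (j + 1 + i)) (C (f.coeff (j + 1 + i)) : K[X][X]) := by
    refine TD_C _ ?_
    by_cases h : f.coeff (j + 1 + i) = 0
    · rw [h]
      simp
    · have := hf.td (j + 1 + i) h
      omega
  exact TD.mono (h1.mul (TD_X_pow i)) (by omega)

/-- Proof. Put `c_b = (f.coeff b)(x)`, `c_n = 1`, `f(x, t) = ∑_{b ≤ n} c_b t^b`.  `0 = f(x, z) - f(x, y) = ∑_b c_b (z^b - y^b)` and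
`z^b - y^b = (z - y) ∑_{j < b} z^j y^(b-1-j)` (`Commute.geom_sum₂_mul` / `geom_sum₂`); cancel `z - y`, exchange the sums:
`0 = ∑_{j < n} z^j ∑_{b > j} c_b y^(b-1-j) = ∑_{j < n} z^j (gw f n j)(x, y)` (`b = j + 1 + i`), and `gw f n (n-1) = C (f.coeff n) = 1`. -/
theorem gw_root {n : ℕ} (hn : 1 ≤ n) {f : K[X][X]} (hf : Qn n f) {x y z : K} (hy : f.evalEval x y = 0)
    (hz : f.evalEval x z = 0) (hyz : z ≠ y) :
    z ^ (n - 1) = -∑ j ∈ range (n - 1), (gw f n j).evalEval x y * z ^ j := by
  rw [WB_eval hf] at hy hz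
  have hne : z - y ≠ 0 := sub_ne_zero.2 hyz
  have h0 : ∑ b ∈ range (n + 1), ∑ j ∈ range b,
      (f.coeff b).eval x * (z ^ j * y ^ (b - 1 - j)) = 0 := by
    apply mul_right_cancel₀ hne
    rw [zero_mul, Finset.sum_mul]
    have h1 : ∀ b ∈ range (n + 1), (∑ j ∈ range b,
        (f.coeff b).eval x * (z ^ j * y ^ (b - 1 - j))) * (z - y)
        = (f.coeff b).eval x * z ^ b - (f.coeff b).eval x * y ^ b := by
      intro b _
      rw [← Finset.mul_sum, mul_assoc, geom_sum₂_mul, mul_sub]
    rw [Finset.sum_congr rfl h1, Finset.sum_sub_distrib, hy, hz, sub_zero]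
  rw [WB_exch] at h0
  have h2 : ∀ j ∈ range n, ∑ i ∈ range (n - j),
      (f.coeff (j + 1 + i)).eval x * (z ^ j * y ^ (j + 1 + i - 1 - j))
      = (gw f n j).evalEval x y * z ^ j := by
    intro j _
    rw [WB_gw, Finset.sum_mul]
    refine Finset.sum_congr rfl fun i _ => ?_
    rw [show j + 1 + i - 1 - j = i by omega]
    ring
  rw [Finset.sum_congr rfl h2] at h0
  obtain ⟨k, rfl⟩ : ∃ k, n = k + 1 := ⟨n - 1, by omega⟩
  rw [Finset.sum_range_succ] at h0
  have h3 : (gw f (k + 1) k).evalEval x y = 1 := by
    rw [WB_gw, show k + 1 - k = 1 by omega, Finset.sum_range_one, pow_zero, mul_one, add_zero]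
    have h4 : f.coeff (k + 1) = 1 := by
      have := hf.mo.coeff_natDegree
      rwa [hf.dg] at this
    rw [h4, eval_one]
  rw [h3, one_mul] at h0
  rw [Nat.add_sub_cancel]
  linear_combination h0

end HNW
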