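import Pool.Agent.Lib.MP_10e784_agBW.WDefs

/-! LEAF WC.  Orders of vanishing, any degree (model: dvd_of_Vn in QS2 of MP_10e784_agQ). -/

set_option autoImplicit false

open Classical

namespace HNW

open Finset Polynomial HNQ

variable {K : Type} [Field K]

/-- Model: dvd_of_Vn in QS2.  Proof. Induction on `M`. At each of the points `h(x, y) = 0`; the polynomial `h.map (evalRingHom x)` of degree `< n` has `n` roots,
so it is zero and all coefficients of `h` vanish at `x`: `h = C (X - C x) * h'`, `h'.degree < n`; `Vn_xi` and the induction hypothesis for `h'`. -/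
theorem dvd_of_VnW {n : ℕ} {f h : K[X][X]} {x : K} {M : ℕ} (S : Finset K) (hS : n ≤ S.card)
    (hd : h.degree < n) (hy : ∀ y ∈ S, (derivative f).evalEval x y ≠ 0)
    (hk : ∀ j : ℕ, 1 ≤ j → j < M → (j : K) ≠ 0) (hv : ∀ y ∈ S, Vn f x y M h) (b : ℕ) :
    (X - C x) ^ M ∣ h.coeff b := by
  induction M generalizing h with
  | zero => rw [pow_zero]; exact one_dvd _
  | succ M ih =>
    have h1 : h.map (evalRingHom x) = 0 := by
      apply eq_zero_of_degree_lt_of_eval_finset_eq_zero S
      · refine lt_of_le_of_lt degree_map_le (lt_of_lt_of_le hd ?_)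
        exact_mod_cast hS
      · intro y hyS
        rw [map_evalRingHom_eval]
        exact hv y hyS 0 (Nat.succ_pos M)
    have h2 : C (X - C x) ∣ h := by
      rw [C_dvd_iff_dvd_coeff]
      intro i
      rw [dvd_iff_isRoot]
      have h3 : (h.map (evalRingHom x)).coeff i = 0 := by rw [h1, coeff_zero]
      rw [coeff_map] at h3
      exact h3
    obtain ⟨h', hh'⟩ := h2
    have h4 : h'.degree < n := by
      have : h.degree = h'.degree := by
        rw [hh', degree_C_mul (X_sub_C_ne_zero x)]
      rw [← this]; exact hd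
    have h5 : ∀ y ∈ S, Vn f x y M h' := by
      intro y hyS
      apply Vn_xi (hy y hyS) (fun j hj1 hj2 => hk j hj1 (Nat.lt_succ_of_le hj2))
      rw [← hh']
      exact hv y hyS
    have h6 := ih h4 (fun j hj1 hj2 => hk j hj1 (Nat.lt_succ_of_lt hj2)) h5
    rw [hh', coeff_C_mul, pow_succ']
    exact mul_dvd_mul_left _ h6

/-- A power of a function which vanishes at the point.  Proof. Induction on `k`: `Vn_succ`, `Dd f (g ^ (k + 1)) = (k + 1) * g ^ k * Dd f g` (QS1_Dd_pow), `Vn.mul`. -/
theorem Vn_powW {f g : K[X][X]} {x y : K} (hg : g.evalEval x y = 0) (k : ℕ) : Vn f x y k (g ^ k) := by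
  induction k with
  | zero => intro j hj; exact absurd hj (Nat.not_lt_zero j)
  | succ k ih =>
    refine Vn_succ.mpr ⟨?_, ?_⟩
    · rw [pow_succ, evalEval_mul, hg, mul_zero]
    · have e : Dd f (g ^ (k + 1)) = g ^ k * (((k + 1 : ℕ) : K[X][X]) * Dd f g) := by
        rw [QS1_Dd_pow]
        push_cast
        ring
      rw [e]
      exact ih.mul _

/-- Vanishing to the order `k` does not change modulo `f`.  Proof. `h = f * (h /ₘ f) + h %ₘ f` (`modByMonic_add_div`), Vn_self_mul, Vn.sub. -/
theorem Vn_modW {f h : K[X][X]} (hm : f.Monic) {x y : K} {k : ℕ} (hf : f.evalEval x y = 0) (hv : Vn f x y k h) :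
    Vn f x y k (h %ₘ f) := by
  have e : h %ₘ f = h - f * (h /ₘ f) := by
    have h1 := modByMonic_add_div h f
    linear_combination h1
  rw [e]
  exact hv.sub (Vn_self_mul hf _ k)

end HNW
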