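import Pool.Agent.Lib.MP_10e784_agBW.WA
import Pool.Agent.Lib.MP_10e784_agBW.WB

/-! LEAF WD.  A polynomial of small degree which vanishes to the order `p` at a point of an irreducible curve is zero (model: QS4 of MP_10e784_agQ). -/

set_option autoImplicit false

open Classical

namespace HNW

open Finset Polynomial HNQ

variable {K : Type} [Field K]

private theorem WD_degree_f {n : ℕ} {f : K[X][X]} (hf : Qn n f) : f.degree = n := by
  rw [degree_eq_natDegree hf.mo.ne_zero, hf.dg]

/-- the sharper bound for the total degree -/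
private theorem WD_TD_PW {n N : ℕ} (u : Fin n → Fin N → K) : TD (N + n - 2) (PW u) := by
  intro b hb
  have hbn : b < n := by
    by_contra h
    refine hb (Polynomial.ext fun a => ?_)
    rw [coeff_PW, dif_neg (fun h' => h h'.1), coeff_zero]
  have hN : ((PW u).coeff b).natDegree < N := by
    by_contra h
    have h1 : ((PW u).coeff b).leadingCoeff = 0 := by
      rw [leadingCoeff, coeff_PW, dif_neg (fun h' => h h'.2)]
    exact hb (leadingCoeff_eq_zero.1 h1)
  omega

/-- the linear map of the dimension count -/
private noncomputable def WD_Psi (n : ℕ) (f e : K[X][X]) (p N : ℕ) :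
    ((Fin p → K) × (Fin n → Fin p → K)) →ₗ[K] (Fin n → Fin N → K) where
  toFun w := cw n N (C (QS4_Lp p w.1) + (e * PW w.2) %ₘ f)
  map_add' w w' := by
    rw [← cw_add]
    congr 1
    rw [Prod.fst_add, Prod.snd_add, PW_add, mul_add, add_modByMonic, map_add, map_add]
    ring
  map_smul' c w := by
    rw [RingHom.id_apply, ← cw_smul]
    congr 1
    have h1 : e * (C (C c) * PW w.2) = (C c : K[X]) • (e * PW w.2) := by
      rw [smul_eq_C_mul]
      ring
    rw [Prod.smul_fst, Prod.smul_snd, PW_smul, h1, smul_modByMonic, map_smul, smul_eq_C_mul,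
      smul_eq_C_mul, mul_add, map_mul]

/-- Model: eq_zero_of_Vn in QS4 (with 4 replaced by `n`).  Proof. Suppose `e ≠ 0`.  The linear map
`Ψ : (Fin p → K) × (Fin n → Fin p → K) → (Fin n → Fin (A + p + n + 1) → K)`, `Ψ (l, u) = cw n _ (C L + (e * PW u) %ₘ f)` with `L = QS4_Lp p l = ∑ i, l i X^i` (degree `< p`), has a kernel element
`(l, u) ≠ 0` because `p + n p > n (A + p + n) ` (take the array size `A + p + n`; `TD (A + (p + n)) (e * PW u)`: use the sharper bound `a + b ≤ (p - 1) + (n - 1)` for `PW u`, or any bookkeeping with `n (A + n) < p`).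
So `C L + e * PW u ≡ 0` modulo `f` (cw_eq_zero, degree_modW, TD_modW).  If `L = 0`: `f ∣ e * PW u`, `f` prime, both of degree `< n` in `y`: `u = 0`, contradiction.  So `L ≠ 0`; `Vn f x y p (C L)` (Vn.mul, Vn_self_mul, Vn.sub), Vn_C: `(X - C x)^p ∣ L`, impossible. -/
theorem eq_zero_of_VnW (p : ℕ) [Fact p.Prime] [CharP K p] {n : ℕ} (hn : 1 ≤ n) {f e : K[X][X]} (hf : Qn n f)
    (hi : Irreducible f) {x y : K} (hxy : f.evalEval x y = 0) (hy : (derivative f).evalEval x y ≠ 0)
    {A : ℕ} (hA : n * (A + n) < p) (he : TD A e) (hd : e.degree < n) (hv : Vn f x y p e) : e = 0 := by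
  by_contra he0
  have hinj : Function.Injective (WD_Psi n f e p (A + p + n)) := by
    rw [injective_iff_map_eq_zero]
    rintro ⟨l, u⟩ hw
    have hLd := QS4_degree l
    have hp := (Fact.out : p.Prime).pos
    have hg : C (QS4_Lp p l) + (e * PW u) %ₘ f = 0 := by
      refine cw_eq_zero (N := A + p + n) (m := A + (p + n - 2)) ?_ ?_ (by omega) hw
      · refine (degree_add_le _ _).trans_lt (max_lt ?_ (degree_modW hf _))
        refine degree_C_le.trans_lt ?_
        exact_mod_cast hn
      · refine TD.add (TD_C _ ?_) (TD_modW hf (TD.mul he (WD_TD_PW u)))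
        by_cases hL : QS4_Lp p l = 0
        · rw [hL, natDegree_zero]
          omega
        · have := (natDegree_lt_iff_degree_lt hL).2 hLd
          omega
    have hdiv := modByMonic_add_div (e * PW u) f
    have hCL : C (QS4_Lp p l) = f * ((e * PW u) /ₘ f) - e * PW u := by
      rw [eq_sub_iff_add_eq]
      conv_lhs => rw [← hdiv]
      rw [← add_assoc, hg, zero_add]
    have hVL : Vn f x y p (C (QS4_Lp p l)) := by
      rw [hCL]
      exact Vn.sub (Vn_self_mul hxy _ _) (Vn.mul hv _)
    have hdvd := Vn_C hy (fun j h1 h2 h3 => by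
      rw [CharP.cast_eq_zero_iff K p] at h3
      exact absurd (Nat.le_of_dvd (by omega) h3) (by omega)) hVL
    have hL0 : QS4_Lp p l = 0 := by
      by_contra hne
      refine absurd hdvd ((monic_X_sub_C x).pow p |>.not_dvd_of_degree_lt hne ?_)
      rw [degree_pow, degree_X_sub_C, nsmul_one]
      exact hLd
    have hmod : (e * PW u) %ₘ f = 0 := by
      rw [hL0, map_zero, zero_add] at hg
      exact hg
    have hfd : f ∣ e * PW u := (modByMonic_eq_zero_iff_dvd hf.mo).1 hmod
    have hP0 : PW u = 0 := by
      rcases hi.prime.dvd_or_dvd hfd with h1 | h1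
      · exact absurd h1 (hf.mo.not_dvd_of_degree_lt he0 (by rw [WD_degree_f hf]; exact hd))
      · by_contra hne
        exact absurd h1 (hf.mo.not_dvd_of_degree_lt hne (by rw [WD_degree_f hf]; exact PW_degree u))
    rw [QS4_inj hL0, PW_eq_zero hP0]
    rfl
  have hfin := LinearMap.finrank_le_finrank_of_injective hinj
  have h1 : Module.finrank K ((Fin p → K) × (Fin n → Fin p → K)) = p + n * p := by
    rw [Module.finrank_prod, Module.finrank_fin_fun, Module.finrank_pi_fintype]
    simp only [Module.finrank_fin_fun, Finset.sum_const, Finset.card_univ, Fintype.card_fin,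
      smul_eq_mul]
  have h2 : Module.finrank K (Fin n → Fin (A + p + n) → K) = n * (A + p + n) := by
    rw [Module.finrank_pi_fintype]
    simp only [Module.finrank_fin_fun, Finset.sum_const, Finset.card_univ, Fintype.card_fin,
      smul_eq_mul]
  rw [h1, h2] at hfin
  have h3 : n * (A + p + n) = n * (A + n) + n * p := by ring
  omega

end HNW
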