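import Pool.Agent.Lib.MP_10e784_agQ.QS7

/-!
# MP_10e784_ag, block W: points modulo `p` on a plane curve with a branch over `F_p` (Stepanov's method, any degree): definitions

Library: `Pool.Agent.Lib.MP_10e784_agQ.QS1` .. `QS7` (the case of quartics).  `K[X][X]` is the ring of polynomials in
`x` (the inner variable, `C X`) and `y` (the outer one, `X`).
-/

set_option autoImplicit false

open Classical

namespace HNW

open Finset Polynomial HNQ

section

variable {K : Type} [Field K]

/-- `f` is monic in `y` of degree `n` and of total degree at most `n` -/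
structure Qn (n : ℕ) (f : K[X][X]) : Prop where
  mo : f.Monic
  dg : f.natDegree = n
  td : TD n f

/-- the coefficients, with respect to `z`, of `(f(x, z) - f(x, y)) / (z - y)`, `n` the degree of `f` -/
noncomputable def gw (f : K[X][X]) (n j : ℕ) : K[X][X] :=
  ∑ i ∈ range (n - j), C (f.coeff (j + 1 + i)) * X ^ i

/-- the polynomial with the array of coefficients `u` -/
noncomputable def PW {n N : ℕ} (u : Fin n → Fin N → K) : K[X][X] :=
  ∑ b : Fin n, ∑ a : Fin N, monomial (b : ℕ) (monomial (a : ℕ) (u b a))

/-- the array of coefficients of a polynomial -/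
noncomputable def cw (n N : ℕ) (g : K[X][X]) : Fin n → Fin N → K :=
  fun b a => (g.coeff (b : ℕ)).coeff (a : ℕ)

/-- the condition number `(k, j)` of Stepanov's system -/
noncomputable def CdW (f : K[X][X]) (n m : ℕ) (a : ℕ → ℕ → K[X][X]) (k j : ℕ) : K[X][X] :=
  ∑ i ∈ range m, ((Dd f)^[k] (a i j) - gw f n j * (Dd f)^[k] (a i (n - 1))) * C (X ^ i)

/-- Stepanov's function -/
noncomputable def hW (p n m : ℕ) (a : ℕ → ℕ → K[X][X]) : K[X][X] :=
  ∑ i ∈ range m, ∑ j ∈ range n, a i j * (C (X ^ i) * X ^ j) ^ p

/-- the linear change of variables `x ↦ x + c y`, `y ↦ y` -/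
noncomputable def shW (c : K) : K[X][X] →+* K[X][X] :=
  eval₂RingHom (eval₂RingHom (C.comp C) (C X + C (C c) * X)) X

end

section

variable {k S : Type} [Field k] [CommRing S] [Algebra k S]

/-- evaluation of a polynomial in two variables at `x = u`, `y = v` -/
noncomputable def evB (u v : S) : k[X][X] →+* S :=
  eval₂RingHom (eval₂RingHom (algebraMap k S) u) v

theorem evB_CC (u v : S) (c : k) : evB u v (C (C c) : k[X][X]) = algebraMap k S c := by
  simp [evB]

theorem evB_CX (u v : S) : evB u v (C X : k[X][X]) = u := by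
  simp [evB]

theorem evB_X (u v : S) : evB u v (X : k[X][X]) = v := by
  simp [evB]

/-- ring homomorphisms on `k[X][X]` are determined by their values on constants and variables -/
theorem hom_ext2 {R : Type} [CommRing R] {φ ψ : k[X][X] →+* R} (h0 : ∀ c : k, φ (C (C c)) = ψ (C (C c)))
    (h1 : φ (C X) = ψ (C X)) (h2 : φ X = ψ X) : φ = ψ := by
  refine Polynomial.ringHom_ext' (Polynomial.ringHom_ext' (RingHom.ext fun c => ?_) ?_) h2
  · simpa using h0 c
  · simpa using h1

theorem evB_sh (u v : S) (c : k) (F : k[X][X]) :
    evB u v (shW c F) = evB (u + algebraMap k S c * v) v F := by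
  have h : (evB u v).comp (shW c) = evB (u + algebraMap k S c * v) v := by
    refine hom_ext2 (fun a => ?_) ?_ ?_
    · rw [RingHom.comp_apply, evB_CC]
      have : shW c (C (C a)) = C (C a) := by simp [shW]
      rw [this, evB_CC]
    · rw [RingHom.comp_apply, evB_CX]
      have : shW c (C X) = C X + C (C c) * X := by simp [shW]
      rw [this, map_add, map_mul, evB_CX, evB_CC, evB_X]
    · rw [RingHom.comp_apply, evB_X]
      have : shW c X = X := by simp [shW]
      rw [this, evB_X]
  exact congrArg (fun φ : k[X][X] →+* S => φ F) h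

theorem evB_self (x y : k) (F : k[X][X]) : evB x y F = F.evalEval x y := by
  have h : evB x y = (evalEvalRingHom x y : k[X][X] →+* k) := by
    refine hom_ext2 (fun a => ?_) ?_ ?_
    · rw [evB_CC]; simp
    · rw [evB_CX]; simp
    · rw [evB_X]; simp
  exact congrArg (fun φ : k[X][X] →+* k => φ F) h

end

end HNW
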