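import Pool.Agent.Lib.MP_10e784_agBW.WDefs

/-! LEAF WE.  Common zeros, points with a vertical tangent, roots over a point (model: QS5 of MP_10e784_agQ). -/

set_option autoImplicit false

open Classical

namespace HNW

open Finset Polynomial HNQ

variable {K : Type} [Field K]

private theorem WE_res_deg {n m m' : ℕ} {g G : K[X][X]} (hg : TD n g) (hG : TD m G) :
    (resultant g G n m').natDegree ≤ (n + m') * (n + m) := by
  have h := QS5_det (sylvester g G n m') (n + m) ?_
  · exact h
  · intro i j
    induction j using Fin.addCases with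
    | left j =>
      simp only [sylvester, Matrix.of_apply, Fin.addCases_left]
      split_ifs
      · exact (QS5_coeff_le hG _).trans (Nat.le_add_left _ _)
      · rw [natDegree_zero]
        exact Nat.zero_le _
    | right j =>
      simp only [sylvester, Matrix.of_apply, Fin.addCases_right]
      split_ifs
      · exact (QS5_coeff_le hg _).trans (Nat.le_add_right _ _)
      · rw [natDegree_zero]
        exact Nat.zero_le _

private theorem WE_natDegree_le {m : ℕ} {G : K[X][X]} (hG : TD m G) : G.natDegree ≤ m := by
  by_cases h : G = 0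
  · rw [h, natDegree_zero]
    exact Nat.zero_le _
  · have h1 := hG G.natDegree (leadingCoeff_ne_zero.2 h)
    omega

/-- Model: bad_x in QS5 (there `G = derivative g`).  Proof. `R = resultant g G n m : K[X]` (`natDegree G ≤ m` because of `TD m G`); `exists_mul_add_mul_eq_C_resultant`: `g * u + G * v = C R`, so `R(x) = 0` at every common zero.
`R ≠ 0`: map to the fraction field of `K[X]`: `g.map` is irreducible (`Monic.irreducible_iff_irreducible_map_fraction_map`), it does not divide `G.map` (`g` is monic: `Monic.dvd_iff_fraction_map_dvd_fraction_map` or `modByMonic` commutes with map and the map is injective), so they are coprime and the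
resultant is not zero (`resultant_ne_zero`; if `natDegree G < m` use `resultant_eq...`/ take the resultant with `m = natDegree G` from the start, that is allowed: put `m' = G.natDegree ≤ m`).  Degree: determinant of an `(n + m') × (n + m')` matrix with entries of degree `≤ n + m` (QS5_det). -/
theorem bezT {n m : ℕ} {g G : K[X][X]} (hg : Qn n g) (hi : Irreducible g) (hG : TD m G) (hnd : ¬ g ∣ G) :
    ∃ T : Finset K, T.card ≤ (n + m) ^ 2 ∧ ∀ x y : K, g.evalEval x y = 0 → G.evalEval x y = 0 → x ∈ T := by
  have hn0 : n ≠ 0 := by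
    intro h
    have h1 := hg.dg
    rw [h] at h1
    have h2 := hg.mo.natDegree_eq_zero.1 h1
    rw [h2] at hi
    exact not_irreducible_one hi
  have hm' : G.natDegree ≤ m := WE_natDegree_le hG
  obtain ⟨u, v, -, -, huv⟩ := exists_mul_add_mul_eq_C_resultant (m := n) (n := G.natDegree) g G hg.dg.le le_rfl
    (Or.inl hn0)
  have hdeg : (resultant g G n G.natDegree).natDegree ≤ (n + m) ^ 2 := by
    refine (WE_res_deg hg.td hG).trans ?_
    rw [sq]
    exact Nat.mul_le_mul_right _ (by omega)
  have hR0 : resultant g G n G.natDegree ≠ 0 := by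
    intro h0
    have hφ : Function.Injective (algebraMap K[X] (FractionRing K[X])) := IsFractionRing.injective _ _
    have h1 : resultant (g.map (algebraMap K[X] (FractionRing K[X])))
        (G.map (algebraMap K[X] (FractionRing K[X]))) n G.natDegree = 0 := by
      rw [resultant_map_map, h0, map_zero]
    have h2 : (g.map (algebraMap K[X] (FractionRing K[X]))).natDegree = n := by
      rw [hg.mo.natDegree_map, hg.dg]
    have h3 : (G.map (algebraMap K[X] (FractionRing K[X]))).natDegree = G.natDegree :=
      natDegree_map_eq_of_injective hφ G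
    have h4 : IsCoprime (g.map (algebraMap K[X] (FractionRing K[X])))
        (G.map (algebraMap K[X] (FractionRing K[X]))) := by
      have hirr : Irreducible (g.map (algebraMap K[X] (FractionRing K[X]))) :=
        (hg.mo.irreducible_iff_irreducible_map_fraction_map (K := FractionRing K[X])).1 hi
      rw [hirr.coprime_iff_not_dvd]
      intro hdvd
      exact hnd ((map_dvd_map _ hφ hg.mo).1 hdvd)
    have h6 := resultant_ne_zero _ _ h4
    rw [h2, h3] at h6
    exact h6 h1
  refine ⟨(resultant g G n G.natDegree).roots.toFinset,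
    (Multiset.toFinset_card_le _).trans ((card_roots' _).trans hdeg), ?_⟩
  intro x y h0 h1
  rw [Multiset.mem_toFinset, mem_roots hR0, IsRoot.def]
  have h2 := congrArg (evalEval x y) huv
  rw [evalEval_add, evalEval_mul, evalEval_mul, h0, h1, evalEval_C, zero_mul, zero_mul, add_zero] at h2
  exact h2.symm

/-- Proof. bezT with `G = derivative f`, `TD n` (QS1_TD_der or directly): `f ∤ derivative f` because `derivative f ≠ 0` (coefficient `n - 1` is `n ≠ 0` in `K`, `1 ≤ n < p`) and its degree is `< n`. -/
theorem bad_xW (p : ℕ) [Fact p.Prime] [CharP K p] {n : ℕ} (hn : 1 ≤ n) (hnp : n < p) {f : K[X][X]}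
    (hf : Qn n f) (hi : Irreducible f) :
    ∃ T : Finset K, T.card ≤ 4 * n ^ 2 ∧
      ∀ x y : K, x ∉ T → f.evalEval x y = 0 → (derivative f).evalEval x y ≠ 0 := by
  have hTD : TD n (derivative f) := by
    intro b hb
    rw [coeff_derivative] at hb ⊢
    have h1 : ((b : K[X]) + 1) = C ((b : K) + 1) := by
      rw [map_add, map_natCast, map_one]
    have h2 : f.coeff (b + 1) ≠ 0 := left_ne_zero_of_mul hb
    have h3 := hf.td (b + 1) h2
    rw [h1]
    have h4 := natDegree_mul_C_le (f.coeff (b + 1)) ((b : K) + 1)
    omega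
  have hd0 : derivative f ≠ 0 := by
    intro h0
    have h1 : (derivative f).coeff (n - 1) = 0 := by rw [h0, coeff_zero]
    have h2 : n - 1 + 1 = n := by omega
    rw [coeff_derivative, h2] at h1
    have h3 : f.coeff n = 1 := by
      have := hf.mo.coeff_natDegree
      rwa [hf.dg] at this
    have h4 : (((n - 1 : ℕ) : K[X]) + 1) = C ((n : ℕ) : K) := by
      rw [map_natCast]
      have h5 : ((n - 1 : ℕ) : K[X]) + 1 = ((n - 1 + 1 : ℕ) : K[X]) := by push_cast; rfl
      rw [h5, h2]
    rw [h3, one_mul, h4, C_eq_zero, CharP.cast_eq_zero_iff K p] at h1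
    exact absurd (Nat.le_of_dvd (by omega) h1) (by omega)
  have hlt : (derivative f).natDegree < f.natDegree :=
    natDegree_derivative_lt (by rw [hf.dg]; omega)
  obtain ⟨T, hT, hTm⟩ := bezT hf hi hTD (not_dvd_of_natDegree_lt hd0 hlt)
  refine ⟨T, hT.trans (by nlinarith), fun x y hx h0 h1 => hx (hTm x y h0 h1)⟩

/-- Model: four_roots in QS5. -/
theorem n_roots [IsAlgClosed K] {n : ℕ} {f : K[X][X]} (hf : Qn n f) {x : K}
    (hx : ∀ y : K, f.evalEval x y = 0 → (derivative f).evalEval x y ≠ 0) :
    ∃ S : Finset K, S.card = n ∧ ∀ y : K, y ∈ S ↔ f.evalEval x y = 0 := by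
  have hgd : (f.map (evalRingHom x)).natDegree = n := by rw [hf.mo.natDegree_map, hf.dg]
  have hg0 : f.map (evalRingHom x) ≠ 0 := (hf.mo.map _).ne_zero
  have hnd : (f.map (evalRingHom x)).roots.Nodup := by
    rw [Multiset.nodup_iff_count_le_one]
    intro y
    rw [count_roots]
    by_contra hlt
    rw [not_le, one_lt_rootMultiplicity_iff_isRoot hg0, IsRoot.def, IsRoot.def, derivative_map,
      map_evalRingHom_eval, map_evalRingHom_eval] at hlt
    exact hx y hlt.1 hlt.2
  refine ⟨(f.map (evalRingHom x)).roots.toFinset, ?_, ?_⟩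
  · rw [Multiset.toFinset_card_of_nodup hnd, IsAlgClosed.card_roots_eq_natDegree, hgd]
  · intro y
    rw [Multiset.mem_toFinset, mem_roots hg0, IsRoot.def, map_evalRingHom_eval]

/-- Proof. The roots of the monic polynomial `f.map (evalRingHom x)` of degree `n`. -/
theorem roots_le {n : ℕ} {f : K[X][X]} (hf : Qn n f) (x : K) :
    ∃ S : Finset K, S.card ≤ n ∧ ∀ y : K, f.evalEval x y = 0 → y ∈ S := by
  have hgd : (f.map (evalRingHom x)).natDegree = n := by rw [hf.mo.natDegree_map, hf.dg]
  have hg0 : f.map (evalRingHom x) ≠ 0 := (hf.mo.map _).ne_zero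
  refine ⟨(f.map (evalRingHom x)).roots.toFinset, ?_, ?_⟩
  · exact (Multiset.toFinset_card_le _).trans ((card_roots' _).trans hgd.le)
  · intro y hy
    rw [Multiset.mem_toFinset, mem_roots hg0, IsRoot.def, map_evalRingHom_eval]
    exact hy

end HNW
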