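import Pool.Agent.Lib.MP_10e784_agBW.WD
import Pool.Agent.Lib.MP_10e784_agBW.WE

/-! LEAF WF.  Linear independence of `p`-th powers (model: QS5_point, QS5_two, indep_pow in QS5 of MP_10e784_agQ). -/

set_option autoImplicit false

open Classical

namespace HNW

open Finset Polynomial HNQ

variable {K : Type} [Field K]

private theorem WF_point (p : ℕ) [Fact p.Prime] [CharP K p] {n : ℕ} (hn : 1 ≤ n) {f : K[X][X]} (hf : Qn n f)
    (hi : Irreducible f) {A m : ℕ} (hA : n * (A + n) < p) (a : ℕ → ℕ → K[X][X])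
    (ha : ∀ i j, TD A (a i j)) (hd : ∀ i j, (a i j).degree < n) (h : f ∣ hW p n m a) {x y : K}
    (hxy : f.evalEval x y = 0) (hy : (derivative f).evalEval x y ≠ 0) :
    ∑ i ∈ range m, ∑ j ∈ range n, C (C ((x ^ (i : ℕ) * y ^ (j : ℕ)) ^ p)) * a i j = 0 := by
  refine eq_zero_of_VnW p hn hf hi hxy hy hA ?_ ?_ ?_
  · refine TD.sum _ _ fun i _ => TD.sum _ _ fun j _ => ?_
    have := TD.mul (TD_C (n := 0) (C ((x ^ (i : ℕ) * y ^ (j : ℕ)) ^ p)) (by rw [natDegree_C])) (ha i j)
    rwa [zero_add] at this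
  · refine (degree_sum_le _ _).trans_lt ((Finset.sup_lt_iff (WithBot.bot_lt_coe n)).2 fun i _ => ?_)
    refine (degree_sum_le _ _).trans_lt ((Finset.sup_lt_iff (WithBot.bot_lt_coe n)).2 fun j _ => ?_)
    exact ((degree_mul_le _ _).trans (add_le_of_nonpos_left degree_C_le)).trans_lt (hd i j)
  · intro k _
    obtain ⟨g, hg⟩ := h
    have h1 : ((Dd f)^[k] (hW p n m a)).evalEval x y = 0 := by
      rw [hg]
      exact Vn_self_mul hxy g (k + 1) k (Nat.lt_succ_self k)
    unfold hW at h1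
    rw [Dd_iter_sum, evalEval_finsetSum] at h1 ⊢
    rw [← h1]
    refine Finset.sum_congr rfl fun i _ => ?_
    rw [Dd_iter_sum, Dd_iter_sum, evalEval_finsetSum, evalEval_finsetSum]
    refine Finset.sum_congr rfl fun j _ => ?_
    rw [Dd_iter_smul, Dd_iter_mul_pow_p, evalEval_mul, evalEval_mul, evalEval_pow, evalEval_mul, evalEval_C,
      evalEval_C, evalEval_pow, evalEval_X, eval_C, eval_pow, eval_X, mul_comm]

private theorem WF_two [IsAlgClosed K] {n : ℕ} {f : K[X][X]} (hf : Qn n f) (T : Finset K)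
    (hT : ∀ x y : K, x ∉ T → f.evalEval x y = 0 → (derivative f).evalEval x y ≠ 0) {m : ℕ}
    (β : ℕ → ℕ → K)
    (h : ∀ x y : K, x ∉ T → f.evalEval x y = 0 →
      ∑ i ∈ range m, ∑ j ∈ range n, x ^ (i : ℕ) * y ^ (j : ℕ) * β i j = 0) :
    ∀ i j, i < m → j < n → β i j = 0 := by
  have h1 : ∀ x : K, x ∉ T → ∀ j : ℕ, j < n → ∑ i ∈ range m, β i j * x ^ (i : ℕ) = 0 := by
    intro x hx
    obtain ⟨S, hS, hSf⟩ := n_roots hf (hT x · hx)
    have h2 := QS5_van (fun j : Fin n => ∑ i ∈ range m, β i j * x ^ (i : ℕ)) S hS.ge (fun y hy => by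
      rw [← h x y hx ((hSf y).1 hy), Finset.sum_comm, ← Fin.sum_univ_eq_sum_range
        (fun j => ∑ i ∈ range m, x ^ (i : ℕ) * y ^ (j : ℕ) * β i j) n]
      refine Finset.sum_congr rfl fun j _ => ?_
      rw [Finset.sum_mul]
      refine Finset.sum_congr rfl fun i _ => ?_
      ring)
    intro j hj
    exact congrFun h2 ⟨j, hj⟩
  have : Infinite K := IsAlgClosed.instInfinite
  obtain ⟨U, hU, hUc⟩ := (T.finite_toSet.infinite_compl).exists_subset_card_eq m
  intro i j hi hj
  have h3 := QS5_van (fun i : Fin m => β i j) U hUc.ge (fun x hx => by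
    have h4 := h1 x (by
      have := hU hx
      simpa using this) j hj
    rw [← h4, ← Fin.sum_univ_eq_sum_range (fun i => β i j * x ^ (i : ℕ)) m])
  exact congrFun h3 ⟨i, hi⟩

/-- Model: indep_pow in QS5, with 4 replaced by `n` and sums over `range` instead of `Fin` (QS5_van is general and can be used; `hW p n m a = ∑ i ∈ range m, ∑ j ∈ range n, a i j * (C (X ^ i) * X ^ j) ^ p`).
Proof. At a point `(x, y)` of the curve with `f_y ≠ 0` put `e = ∑ C (C ((x ^ i * y ^ j) ^ p)) * a i j`: `TD A e`, degree `< n`; `hW - e = ∑ a i j * (C (X ^ i) * X ^ j - C (C (x ^ i * y ^ j))) ^ p` vanishes to the order `p` at the point (Vn_powW-like: see QS5_point), and `f ∣ hW`, so `Vn f x y p e` and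
eq_zero_of_VnW gives `e = 0`.  Compare coefficients: for every coefficient `β i j` (take `p`-th roots, `K` algebraically closed) `∑ x ^ i y ^ j β i j = 0` at all such points; over a good `x` (bad_xW) there are `n` roots `y` (n_roots): the coefficients in `y` vanish, for infinitely many `x`. -/
theorem indep_powW (p : ℕ) [Fact p.Prime] [CharP K p] [IsAlgClosed K] {n : ℕ} (hn : 1 ≤ n) {f : K[X][X]}
    (hf : Qn n f) (hi : Irreducible f) {A m : ℕ} (hA : n * (A + n) < p) (a : ℕ → ℕ → K[X][X])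
    (ha : ∀ i j, TD A (a i j)) (hd : ∀ i j, (a i j).degree < n) (h : f ∣ hW p n m a) :
    ∀ i j, i < m → j < n → a i j = 0 := by
  have hnp : n < p := by
    have h1 : n * 1 ≤ n * (A + n) := Nat.mul_le_mul_left n (by omega)
    omega
  obtain ⟨T, -, hT⟩ := bad_xW p hn hnp hf hi
  intro i j hi' hj'
  ext b a'
  rw [coeff_zero, coeff_zero]
  have hβ : ∀ i j, ∃ β : K, β ^ p = ((a i j).coeff b).coeff a' := fun i j =>
    IsAlgClosed.exists_pow_nat_eq _ (Fact.out : p.Prime).pos
  choose β hβ using hβ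
  rw [← hβ i j]
  have hz : ∀ i j, i < m → j < n → β i j = 0 := by
    refine WF_two hf T hT β fun x y hx hxy => ?_
    have h1 := WF_point p hn hf hi hA a ha hd h hxy (hT x y hx hxy)
    have h2 : ((∑ i ∈ range m, ∑ j ∈ range n, C (C ((x ^ (i : ℕ) * y ^ (j : ℕ)) ^ p)) * a i j).coeff b).coeff a' = 0 := by
      rw [h1, coeff_zero, coeff_zero]
    have h3 : (∑ i ∈ range m, ∑ j ∈ range n, x ^ (i : ℕ) * y ^ (j : ℕ) * β i j) ^ p = 0 := by
      rw [← h2, finsetSum_coeff, finsetSum_coeff, sum_pow_char]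
      refine Finset.sum_congr rfl fun i _ => ?_
      rw [finsetSum_coeff, finsetSum_coeff, sum_pow_char]
      refine Finset.sum_congr rfl fun j _ => ?_
      rw [coeff_C_mul, coeff_C_mul, mul_pow, hβ]
    exact pow_eq_zero_iff (Fact.out : p.Prime).ne_zero |>.1 h3
  rw [hz i j hi' hj', zero_pow (Fact.out : p.Prime).ne_zero]

end HNW
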