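import Pool.Agent.Lib.MP_10e784_agBW.WA
import Pool.Agent.Lib.MP_10e784_agBW.WB

/-! LEAF WG.  The linear system of Stepanov's method (model: QS6 of MP_10e784_agQ). -/

set_option autoImplicit false

open Classical

namespace HNW

open Finset Polynomial HNQ

variable {K : Type} [Field K]

/-- the coefficients of the system as functions on the natural numbers -/
private noncomputable def WG_a {n m N : ℕ} (u : Fin m → Fin n → Fin n → Fin N → K) (i j : ℕ) : K[X][X] :=
  if h : i < m ∧ j < n then PW (u ⟨i, h.1⟩ ⟨j, h.2⟩) else 0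

private theorem WG_a_add {n m N : ℕ} (u u' : Fin m → Fin n → Fin n → Fin N → K) (i j : ℕ) :
    WG_a (u + u') i j = WG_a u i j + WG_a u' i j := by
  unfold WG_a
  split_ifs with h
  · rw [Pi.add_apply, Pi.add_apply, PW_add]
  · rw [add_zero]

private theorem WG_a_smul {n m N : ℕ} (c : K) (u : Fin m → Fin n → Fin n → Fin N → K) (i j : ℕ) :
    WG_a (c • u) i j = C (C c) * WG_a u i j := by
  unfold WG_a
  split_ifs with h
  · rw [Pi.smul_apply, Pi.smul_apply, PW_smul]
  · rw [mul_zero]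

private theorem WG_a_TD {n m N : ℕ} (u : Fin m → Fin n → Fin n → Fin N → K) (i j : ℕ) :
    TD (N + n) (WG_a u i j) := by
  unfold WG_a
  split_ifs with h
  · exact TD_PW _
  · intro b hb
    exact absurd (coeff_zero b) hb

private theorem WG_a_deg {n m N : ℕ} (u : Fin m → Fin n → Fin n → Fin N → K) (i j : ℕ) :
    (WG_a u i j).degree < n := by
  unfold WG_a
  split_ifs with h
  · exact PW_degree _
  · rw [degree_zero]
    exact WithBot.bot_lt_coe n

private theorem WG_Cd_add (f : K[X][X]) (n m : ℕ) (a a' : ℕ → ℕ → K[X][X]) (k j : ℕ) :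
    CdW f n m (fun i l => a i l + a' i l) k j = CdW f n m a k j + CdW f n m a' k j := by
  unfold CdW
  rw [← Finset.sum_add_distrib]
  refine Finset.sum_congr rfl fun i _ => ?_
  rw [QS6_iter_add, QS6_iter_add]
  ring

private theorem WG_Cd_smul (f : K[X][X]) (n m : ℕ) (c : K) (a : ℕ → ℕ → K[X][X]) (k j : ℕ) :
    CdW f n m (fun i l => C (C c) * a i l) k j = C (C c) * CdW f n m a k j := by
  unfold CdW
  rw [Finset.mul_sum]
  refine Finset.sum_congr rfl fun i _ => ?_
  rw [Dd_iter_smul, Dd_iter_smul]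
  ring

/-- the linear map of the system -/
private noncomputable def WG_map (f : K[X][X]) (n M m N N' : ℕ) :
    (Fin m → Fin n → Fin n → Fin N → K) →ₗ[K] (Fin M → Fin (n - 1) → Fin n → Fin N' → K) where
  toFun u := fun k j => cw n N' (CdW f n m (WG_a u) (k : ℕ) (j : ℕ) %ₘ f)
  map_add' u u' := by
    funext k j
    have e : WG_a (u + u') = fun (i l : ℕ) => WG_a u i l + WG_a u' i l := by
      funext i l
      exact WG_a_add u u' i l
    rw [e, WG_Cd_add, Polynomial.add_modByMonic, cw_add]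
    rfl
  map_smul' c u := by
    funext k j
    have e : WG_a (c • u) = fun (i l : ℕ) => C (C c) * WG_a u i l := by
      funext i l
      exact WG_a_smul c u i l
    rw [e, WG_Cd_smul, ← Polynomial.smul_eq_C_mul, Polynomial.smul_modByMonic, Polynomial.smul_eq_C_mul,
      cw_smul]
    rfl

private theorem WG_TD {n m N : ℕ} (hn : 2 ≤ n) {f : K[X][X]} (hf : Qn n f) {a : ℕ → ℕ → K[X][X]}
    (ha : ∀ i j, TD (N + n) (a i j)) (k j : ℕ) :
    TD (N + n + (n - 2) * k + n + m) (CdW f n m a k j) := by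
  unfold CdW
  refine TD.sum _ _ fun i hi => ?_
  have him : i < m := Finset.mem_range.1 hi
  have hf2 : TD (n - 2 + 2) f := by
    rw [Nat.sub_add_cancel hn]
    exact hf.td
  have h1 : TD (N + n + (n - 2) * k) ((Dd f)^[k] (a i j)) := TD_DdW_iter hf2 (ha _ _) k
  have h2 : TD (N + n + (n - 2) * k) ((Dd f)^[k] (a i (n - 1))) := TD_DdW_iter hf2 (ha _ _) k
  have h3 : TD (n + (N + n + (n - 2) * k)) (gw f n j * (Dd f)^[k] (a i (n - 1))) :=
    TD.mul (TD_gw hf j) h2
  have h4 : TD (n + (N + n + (n - 2) * k))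
      ((Dd f)^[k] (a i j) - gw f n j * (Dd f)^[k] (a i (n - 1))) :=
    TD.sub (TD.mono h1 (by omega)) h3
  have h5 : TD m (C (X ^ i) : K[X][X]) := by
    refine TD_C _ ?_
    rw [natDegree_X_pow]
    omega
  exact TD.mono (TD.mul h4 h5) (by omega)

/-- Model: exists_system in QS6.  Proof. Linear map `Φ : (Fin m → Fin n → Fin n → Fin N → K) → (Fin M → Fin (n - 1) → Fin n → Fin N' → K)`, `N' = N + M n + 3 n + m`,
`Φ u k j = cw n N' (CdW f n m a k j %ₘ f)` where `a i j = PW (u i j)` for `i < m`, `j < n` and `0` otherwise.  Dimensions `m n n N` and `M (n-1) n N'`: by `hc` times `n` there is `u ≠ 0` with `Φ u = 0` (`LinearMap.exists_ne_zero_of_finrank_lt`-type, see QS6).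
`TD (N + n) (PW _)`, TD_DdW_iter (`n = (n - 2) + 2`), TD_gw: `TD (N + n + (n-2) k + n + m) (CdW ..)` and this is `< N'` for `k < M` (`TD_C` for `C (X ^ i)`, `i < m`), so cw_eq_zero gives `CdW %ₘ f = 0`.
`u ≠ 0`: some `PW (u i j) ≠ 0` (PW_eq_zero). -/
theorem exists_systemW {n M m N : ℕ} (hn : 2 ≤ n) {f : K[X][X]} (hf : Qn n f)
    (hc : M * (n - 1) * (N + M * n + 3 * n + m) < m * n * N) :
    ∃ a : ℕ → ℕ → K[X][X], (∃ i j, i < m ∧ j < n ∧ a i j ≠ 0) ∧ (∀ i j, TD (N + n) (a i j)) ∧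
      (∀ i j, (a i j).degree < n) ∧ ∀ k j : ℕ, k < M → j < n - 1 → f ∣ CdW f n m a k j := by
  have hfin : Module.finrank K (Fin M → Fin (n - 1) → Fin n → Fin (N + M * n + 3 * n + m) → K) <
      Module.finrank K (Fin m → Fin n → Fin n → Fin N → K) := by
    simp only [Module.finrank_pi_fintype, Module.finrank_self, Finset.sum_const, Finset.card_univ, Fintype.card_fin,
      smul_eq_mul, mul_one]
    have h1 := Nat.mul_lt_mul_of_pos_right hc (show 0 < n by omega)
    calc M * ((n - 1) * (n * (N + M * n + 3 * n + m))) = M * (n - 1) * (N + M * n + 3 * n + m) * n := by ring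
      _ < m * n * N * n := h1
      _ = m * (n * (n * N)) := by ring
  obtain ⟨u, hu, hu0⟩ := (Submodule.ne_bot_iff _).1
    (LinearMap.ker_ne_bot_of_finrank_lt (f := WG_map f n M m N (N + M * n + 3 * n + m)) hfin)
  have hu1 : WG_map f n M m N (N + M * n + 3 * n + m) u = 0 := LinearMap.mem_ker.1 hu
  refine ⟨WG_a u, ?_, WG_a_TD u, WG_a_deg u, ?_⟩
  · by_contra hcon
    refine hu0 ?_
    funext i j
    by_contra hij
    refine hcon ⟨i, j, i.2, j.2, fun h0 => hij (PW_eq_zero ?_)⟩
    unfold WG_a at h0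
    rw [dif_pos ⟨i.2, j.2⟩] at h0
    exact h0
  · intro k j hk hj
    have h1 : cw n (N + M * n + 3 * n + m) (CdW f n m (WG_a u) k j %ₘ f) = 0 :=
      congrFun (congrFun hu1 ⟨k, hk⟩) ⟨j, hj⟩
    have h3 : (n - 2) * k ≤ M * n := by
      calc (n - 2) * k ≤ n * M := Nat.mul_le_mul (Nat.sub_le n 2) hk.le
        _ = M * n := Nat.mul_comm n M
    have h2 : CdW f n m (WG_a u) k j %ₘ f = 0 :=
      cw_eq_zero (degree_modW hf _) (TD_modW hf (WG_TD hn hf (WG_a_TD u) k j)) (by omega) h1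
    exact (modByMonic_eq_zero_iff_dvd hf.mo).1 h2

end HNW
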