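import Pool.Agent.Lib.MP_10e784_agBW.WB

/-! LEAF WH.  The norm of a polynomial modulo the curve, and its degree. -/

set_option autoImplicit false

open Classical

namespace HNW

open Finset Polynomial HNQ

variable {K : Type} [Field K]

private theorem WH_basis {f : K[X][X]} (hm : f.Monic) (j : Fin f.natDegree) :
    AdjoinRoot.powerBasisAux' hm j = AdjoinRoot.mk f (X ^ (j : ℕ)) := by
  have h := (AdjoinRoot.powerBasis' hm).basis_eq_pow j
  rw [AdjoinRoot.powerBasis'_gen] at h
  rw [map_pow, AdjoinRoot.mk_X]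
  exact h

private theorem WH_entry {f : K[X][X]} (hm : f.Monic) (h : K[X][X]) (i j : Fin f.natDegree) :
    Algebra.leftMulMatrix (AdjoinRoot.powerBasisAux' hm) (AdjoinRoot.mk f h) i j =
      ((h * X ^ (j : ℕ)) %ₘ f).coeff (i : ℕ) := by
  rw [Algebra.leftMulMatrix_eq_repr_mul, WH_basis, ← map_mul,
    AdjoinRoot.powerBasisAux'_repr_apply_to_fun, AdjoinRoot.modByMonicHom_mk]

private theorem WH_det {m T : ℕ} (M : Matrix (Fin m) (Fin m) K[X])
    (hM : ∀ i j, M i j ≠ 0 → (M i j).natDegree + (i : ℕ) ≤ T + (j : ℕ)) :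
    M.det.natDegree ≤ m * T := by
  rw [Matrix.det_apply]
  refine natDegree_sum_le_of_forall_le _ _ fun σ _ => ?_
  by_cases h0 : ∃ i, M (σ i) i = 0
  · obtain ⟨i, hi⟩ := h0
    have h1 : ∏ i, M (σ i) i = 0 := Finset.prod_eq_zero (Finset.mem_univ i) hi
    rw [h1, smul_zero, natDegree_zero]
    exact Nat.zero_le _
  · rw [not_exists] at h0
    have h1 : (Equiv.Perm.sign σ • ∏ i, M (σ i) i).natDegree ≤ (∏ i, M (σ i) i).natDegree := by
      rcases Int.units_eq_one_or (Equiv.Perm.sign σ) with e | e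
      · rw [e, one_smul]
      · rw [e, Units.neg_smul, one_smul, natDegree_neg]
    refine h1.trans ((natDegree_prod_le _ _).trans ?_)
    have h2 : ∀ i, (M (σ i) i).natDegree + (σ i : ℕ) ≤ T + (i : ℕ) := fun i => hM _ _ (h0 i)
    have h4 := Finset.sum_le_sum fun i (_ : i ∈ Finset.univ) => h2 i
    rw [Finset.sum_add_distrib, Finset.sum_add_distrib,
      Equiv.sum_comp σ (fun i : Fin m => (i : ℕ)), Finset.sum_const,
      Finset.card_univ, Fintype.card_fin, smul_eq_mul] at h4
    omega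

/-- Proof. Basis `1, y, .., y^(n-1)` of `AdjoinRoot f` over `K[X]` (`AdjoinRoot.powerBasis'`, `f` monic), `Algebra.norm_eq_matrix_det`.  The entry `(i, j)` of the matrix of multiplication by `h` is the coefficient `i` of `(h * X ^ j) %ₘ f` (`AdjoinRoot.modByMonicHom`, `AdjoinRoot.powerBasisAux'_repr_apply_to_fun`),
a polynomial which is zero or of degree `d` with `d + i ≤ T + j` (TD_modW, `TD (T + j) (h * X ^ j)`).  A nonzero product over a permutation `σ` has degree `≤ ∑ (T + j - σ j) = n T`: `∑_j (deg + σ j) ≤ ∑_j (T + j)` and `∑ σ j = ∑ j` (`Equiv.sum_comp`).  `Matrix.det_apply`, `natDegree_sum_le_of_forall_le`. -/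
theorem norm_degW {n T : ℕ} {f h : K[X][X]} (hf : Qn n f) (hh : TD T h) :
    (Algebra.norm K[X] (AdjoinRoot.mk f h)).natDegree ≤ n * T := by
  rw [Algebra.norm_eq_matrix_det (AdjoinRoot.powerBasisAux' hf.mo)]
  refine (WH_det (T := T) _ fun i j hij => ?_).trans_eq (congrArg (· * T) hf.dg)
  rw [WH_entry] at hij ⊢
  exact TD_modW hf (hh.mul (TD_X_pow (j : ℕ))) _ hij

/-- Proof. `AdjoinRoot f` is a domain (`AdjoinRoot.isDomain_of_prime`, irreducible = prime in the factorial ring `K[X][X]`), free of finite rank over `K[X]` (powerBasis'): `Algebra.norm_ne_zero_iff` (or `norm_eq_zero_iff`), `AdjoinRoot.mk_eq_zero`. -/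
theorem norm_neW {n : ℕ} {f h : K[X][X]} (hf : Qn n f) (hi : Irreducible f) (hnd : ¬ f ∣ h) :
    Algebra.norm K[X] (AdjoinRoot.mk f h) ≠ 0 := by
  have : IsDomain (AdjoinRoot f) := AdjoinRoot.isDomain_of_prime hi.prime
  have : Module.Free K[X] (AdjoinRoot f) := Module.Free.of_basis (AdjoinRoot.powerBasisAux' hf.mo)
  have : Module.Finite K[X] (AdjoinRoot f) := Module.Finite.of_basis (AdjoinRoot.powerBasisAux' hf.mo)
  rw [Algebra.norm_ne_zero_iff, Ne, AdjoinRoot.mk_eq_zero]
  exact hnd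

end HNW
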