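import Pool.Agent.Lib.MP_10e784_agBW.WC
import Pool.Agent.Lib.MP_10e784_agBW.WB

/-! LEAF WI.  The order of the norm at a point `x`. -/

set_option autoImplicit false

open Classical

namespace HNW

open Finset Polynomial HNQ

variable {K : Type} [Field K]

private theorem WI_min {n : ℕ} {f : K[X][X]} (hf : Qn n f) :
    minpoly K[X] (AdjoinRoot.root f) = f := by
  symm
  refine minpoly.unique' K[X] (AdjoinRoot.root f) hf.mo ?_ ?_
  · rw [AdjoinRoot.aeval_eq, AdjoinRoot.mk_self]
  · intro q hq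
    by_cases h : q = 0
    · exact Or.inl h
    · right
      rw [AdjoinRoot.aeval_eq, Ne, AdjoinRoot.mk_eq_zero]
      exact hf.mo.not_dvd_of_degree_lt h hq

/-- Norm of `y - l`, `l` a polynomial in `x`.  Proof. `Algebra.norm (root f - l) = det (M - l)` with `charpoly M = f` (`charpoly_leftMulMatrix`, `AdjoinRoot.minpoly_powerBasis_gen..`; over `K[X]`: `Algebra.PowerBasis`, `AdjoinRoot.powerBasis'`, its `minpolyGen` / `AdjoinRoot.powerBasis'_..`), `f.eval l = det (l - M) = (-1)^n det (M - l)`.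
Alternatively with a direct argument: `Algebra.norm K[X] (algebraMap l - root f) = (minpoly ..).eval l` (search `norm_sub`/`eval_charpoly`). -/
theorem norm_linW {n : ℕ} {f : K[X][X]} (hf : Qn n f) (l : K[X]) :
    Algebra.norm K[X] (AdjoinRoot.mk f (X - C l)) = (-1) ^ n * f.eval l := by
  have hgen : (AdjoinRoot.powerBasis' hf.mo).gen = AdjoinRoot.root f := AdjoinRoot.powerBasis'_gen hf.mo
  have hdim : (AdjoinRoot.powerBasis' hf.mo).dim = n := (AdjoinRoot.powerBasis'_dim hf.mo).trans hf.dg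
  generalize AdjoinRoot.powerBasis' hf.mo = pb at hgen hdim
  have e1 : AdjoinRoot.mk f (X - C l) = pb.gen - algebraMap K[X] _ l := by
    rw [map_sub, AdjoinRoot.mk_X, AdjoinRoot.mk_C, hgen]
    rfl
  rw [e1, Algebra.norm_eq_matrix_det pb.basis, map_sub, AlgHom.commutes]
  have e2 : Algebra.leftMulMatrix pb.basis pb.gen - algebraMap K[X] (Matrix (Fin pb.dim) (Fin pb.dim) K[X]) l =
      -(Matrix.scalar (Fin pb.dim) l - Algebra.leftMulMatrix pb.basis pb.gen) := by
    rw [neg_sub]
    rfl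
  rw [e2, Matrix.det_neg, ← Matrix.eval_charpoly, charpoly_leftMulMatrix, Fintype.card_fin, hdim, hgen,
    WI_min hf]

private theorem WI_eval (f : K[X][X]) (l : K[X]) (x : K) :
    (f.eval l).eval x = f.evalEval x (l.eval x) := by
  have h : (evalRingHom x).comp (evalRingHom l) = (evalEvalRingHom x (l.eval x) : K[X][X] →+* K) := by
    refine hom_ext2 (fun a => ?_) ?_ ?_
    · simp
    · simp
    · simp
  exact congrArg (fun φ : K[X][X] →+* K => φ f) h

private theorem WI_der (f : K[X][X]) (l : K[X]) :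
    derivative (f.eval l) = (dX f).eval l + derivative l * (derivative f).eval l := by
  induction f using Polynomial.induction_on' with
  | add p q hp hq =>
    rw [eval_add, derivative_add, hp, hq, QS1_dX_add, eval_add, derivative_add, eval_add]
    ring
  | monomial b c =>
    have h1 : dX (monomial b c : K[X][X]) = monomial b (derivative c) := by
      refine Polynomial.ext fun i => ?_
      rw [coeff_dX, coeff_monomial, coeff_monomial]
      split_ifs
      · rfl
      · exact derivative_zero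
    rw [h1, eval_monomial, eval_monomial, derivative_mul, derivative_monomial, eval_monomial, derivative_pow,
      C_eq_natCast]
    ring

/-- the line through the point `(x, y)` in the direction `c` -/
private noncomputable def WI_l (x y c : K) : K[X] := C y + C c * (X - C x)

private theorem WI_l_eval (x y c : K) : (WI_l x y c).eval x = y := by
  unfold WI_l
  simp

private theorem WI_l_der (x y c : K) : derivative (WI_l x y c) = C c := by
  unfold WI_l
  simp

/-- the norm of the linear function has a simple zero at `x` -/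
private theorem WI_simple {n : ℕ} {f : K[X][X]} (hf : Qn n f) {x y : K} (hSf : f.evalEval x y = 0)
    (hy : (derivative f).evalEval x y ≠ 0) :
    ∃ l U : K[X], l.eval x = y ∧ U.eval x ≠ 0 ∧
      Algebra.norm K[X] (AdjoinRoot.mk f (X - C l)) = (X - C x) * U := by
  obtain ⟨c, hc⟩ : ∃ c : K, (dX f).evalEval x y + c * (derivative f).evalEval x y = 1 := by
    refine ⟨(1 - (dX f).evalEval x y) / (derivative f).evalEval x y, ?_⟩
    rw [div_mul_cancel₀ _ hy]
    ring
  refine ⟨WI_l x y c, ?_⟩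
  rw [norm_linW hf]
  set N : K[X] := (-1) ^ n * f.eval (WI_l x y c) with hN
  have hNe : N.eval x = 0 := by
    rw [hN, eval_mul, WI_eval, WI_l_eval, hSf, mul_zero]
  obtain ⟨U, hU⟩ := dvd_iff_isRoot.2 hNe
  refine ⟨U, WI_l_eval x y c, ?_, hU⟩
  have h1 : (derivative N).eval x = U.eval x := by
    rw [hU, derivative_mul, derivative_X_sub_C, one_mul, eval_add, eval_mul, eval_sub, eval_X, eval_C, sub_self,
      zero_mul, add_zero]
  have h2 : (derivative N).eval x = (-1) ^ n := by
    have h3 : N = C ((-1) ^ n) * f.eval (WI_l x y c) := by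
      rw [hN, C_pow, C_neg, C_1]
    rw [h3, derivative_C_mul, WI_der, WI_l_der, eval_mul, eval_C, eval_add, eval_mul, eval_C, WI_eval, WI_eval,
      WI_l_eval, hc, mul_one]
  rw [← h1, h2]
  exact pow_ne_zero _ (neg_ne_zero.2 one_ne_zero)

theorem norm_ordW {n M : ℕ} {f h : K[X][X]} (hf : Qn n f) {x : K} (S : Finset K) (hS : S.card = n)
    (hSf : ∀ y ∈ S, f.evalEval x y = 0) (hy : ∀ y ∈ S, (derivative f).evalEval x y ≠ 0)
    (hk : ∀ j : ℕ, 1 ≤ j → j < M → (j : K) ≠ 0) (R : Finset K) (hR : R ⊆ S)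
    (hv : ∀ y ∈ S, y ∉ R → Vn f x y M h) :
    (X - C x) ^ (M * (n - R.card)) ∣ Algebra.norm K[X] (AdjoinRoot.mk f h) := by
  have hch : ∀ y : K, ∃ l U : K[X], y ∈ R → l.eval x = y ∧ U.eval x ≠ 0 ∧
      Algebra.norm K[X] (AdjoinRoot.mk f (X - C l)) = (X - C x) * U := by
    intro y
    by_cases hyR : y ∈ R
    · obtain ⟨l, U, h1⟩ := WI_simple hf (hSf y (hR hyR)) (hy y (hR hyR))
      exact ⟨l, U, fun _ => h1⟩
    · exact ⟨0, 0, fun h1 => absurd h1 hyR⟩
  choose l U hlU using hch
  set ℓ : K → K[X][X] := fun y => X - C (l y) with hℓ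
  have hℓ0 : ∀ y ∈ R, (ℓ y).evalEval x y = 0 := by
    intro y hyR
    have h1 : (ℓ y).evalEval x y = y - (l y).eval x := by
      rw [hℓ]
      simp [evalEval]
    rw [h1, (hlU y hyR).1, sub_self]
  set g : K[X][X] := h * ∏ y ∈ R, ℓ y ^ M with hg
  have hgV : ∀ y ∈ S, Vn f x y M g := by
    intro y hyS
    by_cases hyR : y ∈ R
    · rw [hg, ← Finset.mul_prod_erase R _ hyR, mul_left_comm]
      exact (Vn_powW (hℓ0 y hyR) M).mul _
    · exact (hv y hyS hyR).mul _
  have hco := dvd_of_VnW (f := f) (h := g %ₘ f) (x := x) (M := M) S hS.ge (degree_modW hf g) hy hk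
    (fun y hyS => Vn_modW hf.mo (hSf y hyS) (hgV y hyS))
  obtain ⟨q, hq⟩ := (C_dvd_iff_dvd_coeff ((X - C x) ^ M) (g %ₘ f)).2 hco
  have hmk : AdjoinRoot.mk f g = algebraMap K[X] (AdjoinRoot f) ((X - C x) ^ M) * AdjoinRoot.mk f q := by
    have h1 : AdjoinRoot.mk f g = AdjoinRoot.mk f (g %ₘ f) := by
      rw [AdjoinRoot.mk_eq_mk, dvd_sub_comm]
      refine ⟨-(g /ₘ f), ?_⟩
      have h2 := modByMonic_add_div g f
      linear_combination h2
    rw [h1, hq, map_mul, AdjoinRoot.mk_C]
    rfl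
  have hn1 : Algebra.norm K[X] (AdjoinRoot.mk f g) =
      (X - C x) ^ (M * n) * Algebra.norm K[X] (AdjoinRoot.mk f q) := by
    rw [hmk, map_mul, Algebra.norm_algebraMap_of_basis (AdjoinRoot.powerBasis' hf.mo).basis, Fintype.card_fin,
      AdjoinRoot.powerBasis'_dim, hf.dg, ← pow_mul]
  have hn2 : Algebra.norm K[X] (AdjoinRoot.mk f g) =
      (X - C x) ^ (M * R.card) * (Algebra.norm K[X] (AdjoinRoot.mk f h) * ∏ y ∈ R, U y ^ M) := by
    rw [hg, map_mul, map_mul, map_prod, map_prod]
    have h1 : ∏ y ∈ R, Algebra.norm K[X] (AdjoinRoot.mk f (ℓ y ^ M)) =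
        ∏ y ∈ R, ((X - C x) ^ M * U y ^ M) := by
      refine Finset.prod_congr rfl fun y hyR => ?_
      rw [map_pow, map_pow, ← mul_pow]
      congr 1
      exact (hlU y hyR).2.2
    rw [h1, Finset.prod_mul_distrib, Finset.prod_const, ← pow_mul]
    ring
  have hRn : R.card ≤ n := hS ▸ Finset.card_le_card hR
  have hd : (X - C x) ^ (M * (n - R.card)) ∣ Algebra.norm K[X] (AdjoinRoot.mk f h) * ∏ y ∈ R, U y ^ M := by
    have h1 : M * n = M * R.card + M * (n - R.card) := by
      rw [← Nat.mul_add]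
      congr 1
      omega
    have h2 : (X - C x) ^ (M * R.card) * (X - C x) ^ (M * (n - R.card)) ∣
        (X - C x) ^ (M * R.card) * (Algebra.norm K[X] (AdjoinRoot.mk f h) * ∏ y ∈ R, U y ^ M) := by
      rw [← hn2, hn1, h1, pow_add]
      exact dvd_mul_right _ _
    exact (mul_dvd_mul_iff_left (pow_ne_zero _ (X_sub_C_ne_zero x))).1 h2
  refine (prime_X_sub_C x).pow_dvd_of_dvd_mul_right _ ?_ hd
  rw [dvd_iff_isRoot, IsRoot, eval_prod, Finset.prod_eq_zero_iff]
  rintro ⟨y, hyR, h1⟩
  rw [eval_pow] at h1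
  exact pow_ne_zero M (hlU y hyR).2.1 h1

end HNW
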