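import Pool.Agent.Lib.MP_10e784_agBW.WH
import Pool.Agent.Lib.MP_10e784_agBW.WI
import Pool.Agent.Lib.MP_10e784_agBW.WE

/-! LEAF WJ.  Counting. -/

set_option autoImplicit false

open Classical

namespace HNW

open Finset Polynomial HNQ

private theorem WJ_Qn (p : ℕ) [Fact p.Prime] {n : ℕ} {f : (ZMod p)[X][X]} (hf : Qn n f) : Qn n (fK p f) := by
  refine ⟨hf.mo.map _, ?_, ?_⟩
  · rw [fK, hf.mo.natDegree_map, hf.dg]
  · intro b hb
    rw [fK, coeff_map, coe_mapRingHom] at hb ⊢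
    have h0 : f.coeff b ≠ 0 := fun h => hb (by rw [h, Polynomial.map_zero])
    have h1 := hf.td b h0
    have h2 := natDegree_map_le (f := algebraMap (ZMod p) (AlgebraicClosure (ZMod p))) (p := f.coeff b)
    omega

private theorem WJ_deg {K ι : Type} [Field K] (G : Finset ι) (φ : ι → K) (hφ : Function.Injective φ) (e : ι → ℕ)
    {L : K[X]} (hL : L ≠ 0) (h : ∀ i ∈ G, (X - C (φ i)) ^ e i ∣ L) : ∑ i ∈ G, e i ≤ L.natDegree := by
  have h1 : ∏ i ∈ G, (X - C (φ i)) ^ e i ∣ L := by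
    refine Finset.prod_dvd_of_coprime ?_ h
    intro i _ j _ hij
    exact (isCoprime_X_sub_C_of_isUnit_sub (by
      rw [isUnit_iff_ne_zero, sub_ne_zero]
      exact fun h => hij (hφ h))).pow
  have h2 := natDegree_le_of_dvd h1 hL
  rw [natDegree_prod_of_monic _ _ fun i _ => (monic_X_sub_C _).pow _] at h2
  simp only [natDegree_pow, natDegree_X_sub_C, mul_one] at h2
  exact h2

private theorem WJ_fib (p : ℕ) [Fact p.Prime] (f : (ZMod p)[X][X]) :
    (univ.filter fun q : ZMod p × ZMod p => f.evalEval q.1 q.2 = 0).card =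
      ∑ x : ZMod p, (univ.filter fun y : ZMod p => f.evalEval x y = 0).card := by
  rw [Finset.card_filter, Fintype.sum_prod_type]
  exact Finset.sum_congr rfl fun x _ => (Finset.card_filter _ _).symm

/-- Proof. `K` = algebraic closure, `L = Norm (mk h) ≠ 0` (norm_neW), `deg L ≤ n T` (norm_degW).  `T0` of bad_xW (`#T0 ≤ 4 n^2`).  For `x0 : ZMod p` with image `x ∉ T0`: `S` of n_roots (all the roots), `R` = the `y ∈ S` with `y ^ p = y`; norm_ordW (`M ≤ p`): `(X - C x) ^ (M (n - #R)) ∣ L`.  The product over the good `x0` divides `L`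
(pairwise coprime, see QS7_zero), so `∑_{x0 good} M (n - #R_x0) ≤ n T`.  `#R_x0` = the number of `y0 : ZMod p` with `f(x0, y0) = 0` (frob_fixed, QS7_base, injectivity), so `∑ #R_x0 ≤ #points`; and `∑_{good} n ≥ n (p - 4 n^2)`. -/
theorem countW (p : ℕ) [Fact p.Prime] {n M T : ℕ} (hn : 1 ≤ n) (hMp : M ≤ p) (hnp : n < p)
    {f : (ZMod p)[X][X]} (hf : Qn n f) (hi : Irreducible (fK p f))
    {h : (AlgebraicClosure (ZMod p))[X][X]} (hh : TD T h) (hnd : ¬ fK p f ∣ h)
    (hv : ∀ (x : ZMod p) (y : AlgebraicClosure (ZMod p)),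
      (fK p f).evalEval (algebraMap (ZMod p) (AlgebraicClosure (ZMod p)) x) y = 0 → y ^ p ≠ y →
      Vn (fK p f) (algebraMap (ZMod p) (AlgebraicClosure (ZMod p)) x) y M h) :
    M * (n * p) ≤ n * T + M * (n * (4 * n ^ 2)) +
      M * (univ.filter fun q : ZMod p × ZMod p => f.evalEval q.1 q.2 = 0).card := by
  have hp := (Fact.out : p.Prime)
  have hfK := WJ_Qn p hf
  have hinj : Function.Injective (algebraMap (ZMod p) (AlgebraicClosure (ZMod p))) :=
    (algebraMap (ZMod p) (AlgebraicClosure (ZMod p))).injective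
  have hL := norm_neW hfK hi hnd
  have hLd := norm_degW hfK hh
  obtain ⟨T0, hT0, hT0y⟩ := bad_xW p hn hnp hfK hi
  obtain ⟨rr, hrr⟩ : ∃ rr : ZMod p → ℕ, rr = fun x0 => (univ.filter fun y0 : ZMod p => f.evalEval x0 y0 = 0).card :=
    ⟨_, rfl⟩
  obtain ⟨G, hG⟩ : ∃ G : Finset (ZMod p),
      G = univ.filter fun x0 : ZMod p => algebraMap (ZMod p) (AlgebraicClosure (ZMod p)) x0 ∉ T0 := ⟨_, rfl⟩
  have hdvd : ∀ x0 ∈ G, (X - C (algebraMap (ZMod p) (AlgebraicClosure (ZMod p)) x0)) ^ (M * (n - rr x0)) ∣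
      Algebra.norm (AlgebraicClosure (ZMod p))[X] (AdjoinRoot.mk (fK p f) h) := by
    intro x0 hx0
    rw [hG] at hx0
    have hx0' := (mem_filter.1 hx0).2
    obtain ⟨S, hS, hSf⟩ := n_roots hfK (hT0y _ · hx0')
    have hRc : (S.filter fun y => y ^ p = y).card ≤ rr x0 := by
      have hsub : (S.filter fun y => y ^ p = y) ⊆
          (univ.filter fun y0 : ZMod p => f.evalEval x0 y0 = 0).image
            (algebraMap (ZMod p) (AlgebraicClosure (ZMod p))) := by
        intro y hy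
        obtain ⟨hyS, hyp⟩ := mem_filter.1 hy
        obtain ⟨y0, rfl⟩ := frob_fixed p y hyp
        have h1 := (hSf _).1 hyS
        rw [QS7_base, map_eq_zero] at h1
        exact mem_image.2 ⟨y0, mem_filter.2 ⟨mem_univ _, h1⟩, rfl⟩
      have h2 := (card_le_card hsub).trans card_image_le
      rw [hrr]
      exact h2
    refine (pow_dvd_pow _ (Nat.mul_le_mul_left M (Nat.sub_le_sub_left hRc n))).trans ?_
    refine norm_ordW hfK S hS (fun y hy => (hSf y).1 hy) (fun y hy => hT0y _ y hx0' ((hSf y).1 hy))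
      (fun j h1 h2 h3 => ?_) _ (filter_subset _ _) (fun y hy hyR => ?_)
    · rw [CharP.cast_eq_zero_iff _ p] at h3
      exact absurd (Nat.le_of_dvd (by omega) h3) (by omega)
    · exact hv x0 y ((hSf y).1 hy) fun h4 => hyR (mem_filter.2 ⟨hy, h4⟩)
  have h1 := (WJ_deg G _ hinj (fun x0 => M * (n - rr x0)) hL hdvd).trans hLd
  have hcard : p ≤ G.card + 4 * n ^ 2 := by
    have h1 : (univ.filter fun x0 : ZMod p => ¬ algebraMap (ZMod p) (AlgebraicClosure (ZMod p)) x0 ∉ T0).card ≤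
        4 * n ^ 2 := by
      refine le_trans ?_ hT0
      refine Finset.card_le_card_of_injOn (algebraMap (ZMod p) (AlgebraicClosure (ZMod p))) ?_ hinj.injOn
      intro x0 hx0
      have := (mem_filter.1 hx0).2
      exact not_not.1 this
    have h2 := Finset.card_filter_add_card_filter_not (s := (univ : Finset (ZMod p)))
      (fun x0 : ZMod p => algebraMap (ZMod p) (AlgebraicClosure (ZMod p)) x0 ∉ T0)
    rw [card_univ, ZMod.card] at h2
    rw [hG]
    omega
  have h2 : ∑ x0 ∈ G, rr x0 ≤ (univ.filter fun q : ZMod p × ZMod p => f.evalEval q.1 q.2 = 0).card := by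
    rw [WJ_fib p f, hrr]
    exact Finset.sum_le_sum_of_subset (subset_univ _)
  have h3 : G.card * n ≤ ∑ x0 ∈ G, (n - rr x0) + ∑ x0 ∈ G, rr x0 := by
    rw [← Finset.sum_add_distrib, ← smul_eq_mul, ← Finset.sum_const]
    exact Finset.sum_le_sum fun x0 _ => by omega
  rw [← Finset.mul_sum] at h1
  have h4 : M * (n * p) ≤ M * (n * (G.card + 4 * n ^ 2)) :=
    Nat.mul_le_mul_left _ (Nat.mul_le_mul_left _ hcard)
  have h5 : M * (G.card * n) ≤ M * (∑ x0 ∈ G, (n - rr x0) +
      (univ.filter fun q : ZMod p × ZMod p => f.evalEval q.1 q.2 = 0).card) :=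
    Nat.mul_le_mul_left _ (h3.trans (Nat.add_le_add_left h2 _))
  have h6 : M * (n * (G.card + 4 * n ^ 2)) = M * (G.card * n) + M * (n * (4 * n ^ 2)) := by ring
  rw [Nat.mul_add] at h5
  omega

/-- Model: QS7_Qr. -/
theorem Qn_fK (p : ℕ) [Fact p.Prime] {n : ℕ} {f : (ZMod p)[X][X]} (hf : Qn n f) : Qn n (fK p f) :=
  WJ_Qn p hf

end HNW
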