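import Pool.Agent.Lib.MP_10e784_agBW.WB

/-! LEAF WV.  Stepanov's function vanishes at the points which are not rational (model: QS7_cd, QS7_vn, QS7_TD in QS7 of MP_10e784_agQ). -/

set_option autoImplicit false

open Classical

namespace HNW

open Finset Polynomial HNQ

variable {K : Type} [Field K]

private theorem WV_cd {n m : ℕ} {g : K[X][X]} {a : ℕ → ℕ → K[X][X]} {k : ℕ} {x y : K} (hg : g.evalEval x y = 0)
    (j : ℕ) (h : g ∣ CdW g n m a k j) :
    ∑ i ∈ range m, (((Dd g)^[k] (a i j)).evalEval x y -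
      (gw g n j).evalEval x y * ((Dd g)^[k] (a i (n - 1))).evalEval x y) * x ^ i = 0 := by
  obtain ⟨c, hc⟩ := h
  have h1 : (CdW g n m a k j).evalEval x y = 0 := by rw [hc, evalEval_mul, hg, zero_mul]
  rw [CdW, evalEval_finsetSum] at h1
  rw [← h1]
  refine Finset.sum_congr rfl fun i _ => ?_
  rw [evalEval_mul, evalEval_sub, evalEval_mul, evalEval_C, eval_pow, eval_X]

private theorem WV_val (p : ℕ) [Fact p.Prime] [CharP K p] {g b : K[X][X]} {x y : K} (hx : x ^ p = x) (k i j : ℕ) :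
    ((Dd g)^[k] (b * (C (X ^ i) * X ^ j) ^ p)).evalEval x y =
      ((Dd g)^[k] b).evalEval x y * (x ^ i * (y ^ p) ^ j) := by
  rw [Dd_iter_mul_pow_p, evalEval_mul, evalEval_pow, evalEval_mul, evalEval_C, evalEval_pow, evalEval_X,
    eval_pow, eval_X, mul_pow, ← pow_mul, mul_comm i p, pow_mul, hx, ← pow_mul, mul_comm j p, pow_mul]

private theorem WV_alg {N : ℕ} (A G : ℕ → K) (u z : K) (h : z ^ N = -∑ j ∈ range N, G j * z ^ j) :
    ∑ j ∈ range (N + 1), A j * (u * z ^ j) = ∑ j ∈ range N, (A j - G j * A N) * u * z ^ j := by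
  rw [Finset.sum_range_succ, h, mul_neg, mul_neg, Finset.mul_sum, Finset.mul_sum, ← sub_eq_add_neg,
    ← Finset.sum_sub_distrib]
  exact Finset.sum_congr rfl fun j _ => by ring

/-- Model: QS7_vn.  Proof. For `k < M`: `(Dd g)^[k] hW = ∑ (Dd g)^[k] (a i j) * (C (X ^ i) * X ^ j) ^ p` (Dd_iter_sum, Dd_iter_mul_pow_p), the value at `(x, y)` is `∑ (Dd^[k] (a i j))(x, y) x ^ i z ^ j`, `z = y ^ p`, `x ^ p = x`;
by gw_root (`z ^ (n-1) = - ∑ gw_j z ^ j`) it is `∑_{j < n - 1} (CdW g n m a k j)(x, y) z ^ j = 0` because `g ∣ CdW`, `g(x, y) = 0`. -/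
theorem vn_hW (p : ℕ) [Fact p.Prime] [CharP K p] {n M m : ℕ} (hn : 1 ≤ n) {g : K[X][X]} (hq : Qn n g)
    {a : ℕ → ℕ → K[X][X]} {x y : K} (hg : g.evalEval x y = 0) (hz : g.evalEval x (y ^ p) = 0)
    (hyz : y ^ p ≠ y) (hx : x ^ p = x) (h : ∀ k j : ℕ, k < M → j < n - 1 → g ∣ CdW g n m a k j) :
    Vn g x y M (hW p n m a) := by
  intro k hk
  have h3 := gw_root hn hq hg hz hyz
  rw [hW, Dd_iter_sum, evalEval_finsetSum]
  have key : ∀ i : ℕ, ((Dd g)^[k] (∑ j ∈ range n, a i j * (C (X ^ i) * X ^ j) ^ p)).evalEval x y =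
      ∑ j ∈ range (n - 1), (((Dd g)^[k] (a i j)).evalEval x y -
        (gw g n j).evalEval x y * ((Dd g)^[k] (a i (n - 1))).evalEval x y) * x ^ i * (y ^ p) ^ j := by
    intro i
    rw [Dd_iter_sum, evalEval_finsetSum, Finset.sum_congr rfl fun j _ => WV_val p hx k i j]
    have h4 := WV_alg (fun j => ((Dd g)^[k] (a i j)).evalEval x y) (fun j => (gw g n j).evalEval x y)
      (x ^ i) (y ^ p) h3
    rw [Nat.sub_add_cancel hn] at h4
    exact h4
  rw [Finset.sum_congr rfl fun i _ => key i, Finset.sum_comm]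
  refine Finset.sum_eq_zero fun j hj => ?_
  rw [← Finset.sum_mul, WV_cd hg j (h k j hk (Finset.mem_range.1 hj)), zero_mul]

/-- Proof. `(C (X ^ i) * X ^ j) ^ p` has total degree `≤ (i + j) p`, `i ≤ m - 1`, `j ≤ n - 1` (if `m = 0` or `n = 0` the sum is empty). -/
theorem TD_hW (p : ℕ) {n m A : ℕ} {a : ℕ → ℕ → K[X][X]} (ha : ∀ i j, TD A (a i j)) :
    TD (A + (m - 1 + (n - 1)) * p) (hW p n m a) := by
  refine TD.sum _ _ fun i hi => TD.sum _ _ fun j hj => TD.mul (ha i j) ?_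
  have h1 : TD (i + j) ((C (X ^ i) * X ^ j : K[X][X])) :=
    TD.mul (TD_C _ (natDegree_X_pow_le _)) (TD_X_pow _)
  refine (h1.pow p).mono (Nat.mul_le_mul_right _ ?_)
  have h2 := Finset.mem_range.1 hi
  have h3 := Finset.mem_range.1 hj
  omega

end HNW
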