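import Pool.Agent.Lib.MP_10e784_agBW.WJ
import Pool.Agent.Lib.MP_10e784_agBW.WF
import Pool.Agent.Lib.MP_10e784_agBW.WG
import Pool.Agent.Lib.MP_10e784_agBW.WV

/-! LEAF WK.  Many points on an absolutely irreducible monic curve (model: stepanov_quartic in QS7 of MP_10e784_agQ). -/

set_option autoImplicit false

open Classical

namespace HNW

open Finset Polynomial HNQ

/-- The case `n = 1`. -/
theorem WK_one (p : ℕ) [Fact p.Prime] {f : (ZMod p)[X][X]} (hf : Qn 1 f) :
    3 * p ≤ 4 * (univ.filter fun q : ZMod p × ZMod p => f.evalEval q.1 q.2 = 0).card := by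
  have h1 : f = X + C (f.coeff 0) := by
    have h2 := hf.mo.eq_X_add_C hf.dg
    exact h2
  have h3 : (univ : Finset (ZMod p)).card ≤
      (univ.filter fun q : ZMod p × ZMod p => f.evalEval q.1 q.2 = 0).card := by
    refine Finset.card_le_card_of_injOn (fun x => (x, -(f.coeff 0).eval x)) ?_ ?_
    · intro x _
      rw [Finset.mem_coe, mem_filter]
      refine ⟨mem_univ _, ?_⟩
      show f.evalEval x (-(f.coeff 0).eval x) = 0
      have h4 : f.evalEval x (-(f.coeff 0).eval x) =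
          (X + C (f.coeff 0) : (ZMod p)[X][X]).evalEval x (-(f.coeff 0).eval x) :=
        congrArg (fun g : (ZMod p)[X][X] => g.evalEval x (-(f.coeff 0).eval x)) h1
      rw [h4, evalEval_add, evalEval_X, evalEval_C]
      ring
    · intro x _ y _ hxy
      exact (Prod.ext_iff.1 hxy).1
  rw [card_univ, ZMod.card] at h3
  omega

/-- The final arithmetic. -/
theorem WK_arith {n p N P : ℤ} (hn : 2 ≤ n) (hN : N ≤ 128 * n ^ 5) (hp : 1000 * n ^ 6 ≤ p)
    (h : 8 * n ^ 2 * (n * p) ≤ n * ((N + n) + (n - 1) * (8 * n + 1) * p) + 8 * n ^ 2 * (n * (4 * n ^ 2)) +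
      8 * n ^ 2 * P) : 3 * p ≤ 4 * P := by
  by_contra hc
  push Not at hc
  have hc' : 4 * P + 1 ≤ 3 * p := hc
  have hn2 : 0 < n ^ 2 := by positivity
  have h1 : 8 * n ^ 2 * (4 * P + 1) ≤ 8 * n ^ 2 * (3 * p) := mul_le_mul_of_nonneg_left hc' (by positivity)
  have h2 : (4 * n ^ 2 + 4 * n) * p ≤ 4 * n * (N + n) + 128 * n ^ 5 - 8 * n ^ 2 := by nlinarith
  have h3 : (4 * n ^ 2 + 4 * n) * (1000 * n ^ 6) ≤ (4 * n ^ 2 + 4 * n) * p :=
    mul_le_mul_of_nonneg_left hp (by positivity)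
  have h4 : 4 * n * (N + n) ≤ 4 * n * (128 * n ^ 5 + n) :=
    mul_le_mul_of_nonneg_left (by linarith) (by positivity)
  have h5 : n ^ 5 ≤ n ^ 6 := pow_le_pow_right₀ (by linarith) (by norm_num)
  have h6 : n ^ 2 ≤ n ^ 6 := pow_le_pow_right₀ (by linarith) (by norm_num)
  have h7 : n ^ 6 ≤ n ^ 8 := pow_le_pow_right₀ (by linarith) (by norm_num)
  have h8 : 0 < n ^ 7 := by positivity
  have h9 : 0 < n ^ 8 := by positivity
  nlinarith

/-- Proof. `n = 1`: `f = X + C c`, one point over each `x`.  `n ≥ 2`: `M = 8 n^2`, `m = 8 n (n - 1) + 1` (so `m n = M (n - 1) + n`), `N = M * (M * n + 3 * n + m)`; exists_systemW over the algebraic closure for `fK p f` (Qn_fK) gives `a`; `h = hW p n m a`.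
`fK ∤ h`: otherwise indep_powW (`A = N + n`; `n (N + 2 n) ≤ 130 n^6 < p`).  `Vn` at the points which are not rational: vn_hW with frob_eval (`z = y ^ p` is also a root).  countW with `T = N + n + (m + n - 2) p` (TD_hW; `m - 1 + (n - 1) = (n - 1)(8 n + 1)`).
Numbers: `8 n^3 p ≤ n (N + n) + n (n-1) (8 n + 1) p + 32 n^5 + 8 n^2 #`, `n (n-1)(8n+1) = 8 n^3 - 7 n^2 - n`, `N ≤ 128 n^5`: `8 n^2 # ≥ 7 n^2 p - 161 n^6 ≥ 6 n^2 p`. -/
theorem stepW (p : ℕ) [Fact p.Prime] {n : ℕ} (hn : 1 ≤ n) (hp : 1000 * n ^ 6 ≤ p) {f : (ZMod p)[X][X]}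
    (hf : Qn n f) (hi : Irreducible (fK p f)) :
    3 * p ≤ 4 * (univ.filter fun q : ZMod p × ZMod p => f.evalEval q.1 q.2 = 0).card := by
  have hp' := (Fact.out : p.Prime)
  rcases Nat.lt_or_ge n 2 with h1 | h2
  · obtain rfl : n = 1 := by omega
    exact WK_one p hf
  have hfK := Qn_fK p hf
  obtain ⟨l, rfl⟩ : ∃ l, n = l + 1 := ⟨n - 1, by omega⟩
  have hl : 1 ≤ l := by omega
  set n : ℕ := l + 1 with hnl
  set M : ℕ := 8 * n ^ 2 with hM
  set m : ℕ := 8 * n * l + 1 with hm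
  set N : ℕ := M * (M * n + 3 * n + m) with hN
  have hln : l ≤ n := by omega
  have hn0 : 0 < n := by omega
  have hn1 : n - 1 = l := by omega
  have hNb : N ≤ 128 * n ^ 5 := by
    have e1 : m ≤ 9 * n ^ 3 := by
      have : n ≤ n ^ 3 := Nat.le_self_pow (by norm_num) n
      have h3 : n * l ≤ n ^ 3 := by
        calc n * l ≤ n * n := Nat.mul_le_mul_left _ hln
          _ = n ^ 2 := by ring
          _ ≤ n ^ 3 := Nat.pow_le_pow_right hn0 (by norm_num)
      have h4 : 1 ≤ n ^ 3 := Nat.one_le_pow _ _ hn0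
      calc m = 8 * (n * l) + 1 := by rw [hm]; ring
        _ ≤ 8 * n ^ 3 + n ^ 3 := by omega
        _ = 9 * n ^ 3 := by ring
    have e3 : 3 * n ≤ n ^ 3 := by
      have : 3 ≤ n ^ 2 := by nlinarith
      calc 3 * n ≤ n ^ 2 * n := Nat.mul_le_mul_right _ this
        _ = n ^ 3 := by ring
    -- better: m ≤ 7 n^3
    have e4 : m ≤ 7 * n ^ 3 := by
      have h3 : n ^ 2 * 2 ≤ n ^ 3 := by
        calc n ^ 2 * 2 ≤ n ^ 2 * n := Nat.mul_le_mul_left _ h2
          _ = n ^ 3 := by ring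
      have h4 : n * l + n = n ^ 2 := by rw [hnl]; ring
      have h5 : m + 8 * n = 8 * n ^ 2 + 1 := by
        calc m + 8 * n = 8 * (n * l + n) + 1 := by rw [hm]; ring
          _ = 8 * n ^ 2 + 1 := by rw [h4]
      omega
    calc N = M * (M * n + 3 * n + m) := hN
      _ ≤ M * (M * n + n ^ 3 + 7 * n ^ 3) := Nat.mul_le_mul_left _ (by omega)
      _ = 128 * n ^ 5 := by rw [hM]; ring
  have hp5 : n ^ 5 ≤ n ^ 6 := Nat.pow_le_pow_right hn0 (by norm_num)
  have hp2 : n ^ 2 ≤ n ^ 6 := Nat.pow_le_pow_right hn0 (by norm_num)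
  have hp1 : n ≤ n ^ 6 := Nat.le_self_pow (by norm_num) n
  have hp0 : 1 ≤ n ^ 6 := Nat.one_le_pow _ _ hn0
  have hc : M * (n - 1) * (N + M * n + 3 * n + m) < m * n * N := by
    rw [hn1]
    have e1 : m * n = M * l + n := by rw [hM, hm]; ring
    have e2 : M * l * (M * n + 3 * n + m) < n * N := by
      have hMp : 0 < M * (M * n + 3 * n + m) := by positivity
      calc M * l * (M * n + 3 * n + m) = l * (M * (M * n + 3 * n + m)) := by ring
        _ < n * (M * (M * n + 3 * n + m)) := Nat.mul_lt_mul_of_pos_right (by omega) hMp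
        _ = n * N := by rw [hN]
    calc M * l * (N + M * n + 3 * n + m) = M * l * N + M * l * (M * n + 3 * n + m) := by ring
      _ < M * l * N + n * N := Nat.add_lt_add_left e2 _
      _ = m * n * N := by rw [e1]; ring
  obtain ⟨a, ⟨i, j, hi', hj', hij⟩, haT, had, hadvd⟩ := exists_systemW h2 hfK hc
  have hA : n * (N + n + n) < p := by
    calc n * (N + n + n) ≤ n * (128 * n ^ 5 + n + n) := Nat.mul_le_mul_left _ (by omega)
      _ = 128 * n ^ 6 + 2 * n ^ 2 := by ring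
      _ < 1000 * n ^ 6 := by omega
      _ ≤ p := hp
  have hnd : ¬ fK p f ∣ hW p n m a := fun hd =>
    hij (indep_powW p hn hfK hi hA a haT had hd i j hi' hj')
  have hcount := countW p (M := M) hn (by omega) (by omega) hf hi (TD_hW p haT) hnd (by
    intro x y hxy hyp
    refine vn_hW p hn hfK hxy ?_ hyp ?_ hadvd
    · rw [frob_eval, hxy, zero_pow hp'.ne_zero]
    · rw [← map_pow, ZMod.pow_card])
  have hm1 : m - 1 + (n - 1) = l * (8 * n + 1) := by
    rw [hn1, hm, Nat.add_sub_cancel]; ring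
  rw [hm1] at hcount
  have hfin := WK_arith (n := (n : ℤ)) (p := (p : ℤ)) (N := (N : ℤ))
    (P := ((univ.filter fun q : ZMod p × ZMod p => f.evalEval q.1 q.2 = 0).card : ℤ))
    (by exact_mod_cast h2) (by exact_mod_cast hNb) (by exact_mod_cast hp) (by
      have h6 : ((n : ℤ) - 1) = (l : ℤ) := by rw [hnl]; push_cast; ring
      rw [h6]
      have h7 := hcount
      rw [hM] at h7
      exact_mod_cast h7)
  exact_mod_cast hfin

end HNW
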