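import Pool.Agent.Lib.MP_10e784_agBW.WDefs

/-! LEAF WM.  Total degree of a factor; the linear change of variables. -/

set_option autoImplicit false

open Classical

namespace HNW

open Finset Polynomial HNQ

variable {K : Type} [Field K]

/-- the substitution `x ↦ X`, `y ↦ X * C X` -/
private noncomputable def wmT : K[X][X] →+* K[X][X] :=
  eval₂RingHom (mapRingHom C) (X * C X)

private theorem wmT_mono (a b : ℕ) (e : K) :
    wmT (monomial b (monomial a e) : K[X][X]) = monomial (a + b) (monomial b e) := by
  have h : wmT (monomial b (monomial a e) : K[X][X]) = (monomial a (C e) : K[X][X]) * (X * C X) ^ b := by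
    simp only [wmT, coe_eval₂RingHom, eval₂_monomial, coe_mapRingHom, map_monomial]
  rw [h, mul_pow, ← C_pow, ← C_mul_X_pow_eq_monomial, ← C_mul_X_pow_eq_monomial, ← C_mul_X_pow_eq_monomial, C_mul,
    pow_add]
  ring

private theorem wm_ind {P : K[X][X] → Prop} (hadd : ∀ f g, P f → P g → P (f + g))
    (hm : ∀ (a b : ℕ) (e : K), P (monomial b (monomial a e))) (F : K[X][X]) : P F := by
  induction F using Polynomial.induction_on' with
  | add f g hf hg => exact hadd f g hf hg
  | monomial b u =>
    induction u using Polynomial.induction_on' with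
    | add f g hf hg => rw [map_add]; exact hadd _ _ hf hg
    | monomial a e => exact hm a b e

private theorem wmT_coeff (g : K[X][X]) (d b : ℕ) :
    ((wmT g).coeff d).coeff b = if b ≤ d then (g.coeff b).coeff (d - b) else 0 := by
  refine wm_ind (P := fun g => ((wmT g).coeff d).coeff b = if b ≤ d then (g.coeff b).coeff (d - b) else 0) ?_ ?_ g
  · intro f g hf hg
    rw [map_add, coeff_add, coeff_add, hf, hg]
    by_cases h : b ≤ d
    · simp only [if_pos h, coeff_add]
    · simp only [if_neg h, add_zero]
  · intro a b' e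
    rw [wmT_mono, coeff_monomial]
    by_cases h1 : a + b' = d
    · rw [if_pos h1, coeff_monomial]
      by_cases h2 : b' = b
      · rw [if_pos h2, if_pos (by omega), coeff_monomial, if_pos h2, coeff_monomial, if_pos (by omega)]
      · rw [if_neg h2]
        by_cases h : b ≤ d
        · rw [if_pos h, coeff_monomial, if_neg h2, coeff_zero]
        · rw [if_neg h]
    · rw [if_neg h1, coeff_zero]
      by_cases h : b ≤ d
      · rw [if_pos h, coeff_monomial]
        by_cases h2 : b' = b
        · rw [if_pos h2, coeff_monomial, if_neg (by omega)]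
        · rw [if_neg h2, coeff_zero]
      · rw [if_neg h]

private theorem wmT_TD {n : ℕ} {g : K[X][X]} : TD n g ↔ (wmT g).natDegree ≤ n := by
  constructor
  · intro h
    refine natDegree_le_iff_coeff_eq_zero.2 fun d hd => ?_
    ext b
    rw [wmT_coeff, coeff_zero]
    by_cases hb : b ≤ d
    · rw [if_pos hb]
      by_cases h0 : g.coeff b = 0
      · rw [h0, coeff_zero]
      · have := h b h0
        exact coeff_eq_zero_of_natDegree_lt (by omega)
    · rw [if_neg hb]
  · intro h b hb
    refine le_trans (le_natDegree_of_ne_zero fun h0 => ?_) h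
    have h1 := wmT_coeff g ((g.coeff b).natDegree + b) b
    rw [h0, coeff_zero, if_pos (by omega), Nat.add_sub_cancel] at h1
    exact hb (leadingCoeff_eq_zero.1 h1.symm)

private theorem wmT_ne {g : K[X][X]} (hg : g ≠ 0) : wmT g ≠ 0 := by
  intro h
  apply hg
  ext b a
  have h1 := wmT_coeff g (a + b) b
  rw [h, coeff_zero, coeff_zero, if_pos (by omega), Nat.add_sub_cancel] at h1
  rw [← h1, coeff_zero, coeff_zero]

/-- Proof. `θ = evB X (X * C X) : K[X][X] →+* K[X][X]` (`x ↦ X`, `y ↦ X * C X`): the coefficient `d` of `θ g` is `∑_{a + b = d} g_ab X^b`, so for `g ≠ 0` `natDegree (θ g)` is the largest `a + b` with `g_ab ≠ 0`; `TD n g ↔ natDegree (θ g) ≤ n`.  `F = g h`, `h` monic too, `natDegree (θ F) = natDegree (θ g) + natDegree (θ h)`,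
`natDegree (θ h) ≥ natDegree h` (monic in `y`), so `natDegree (θ g) ≤ n - natDegree h = natDegree g`. -/
theorem factorW {F g : K[X][X]} {n : ℕ} (hF : Qn n F) (hg : g.Monic) (h : g ∣ F) : Qn g.natDegree g := by
  obtain ⟨h, rfl⟩ := h
  have hh : h.Monic := hg.of_mul_monic_left hF.mo
  have h1 : g.natDegree + h.natDegree = n := by
    rw [← hg.natDegree_mul hh]; exact hF.dg
  have h2 : (wmT (g * h)).natDegree ≤ n := wmT_TD.1 hF.td
  rw [map_mul, natDegree_mul (wmT_ne hg.ne_zero) (wmT_ne hh.ne_zero)] at h2
  have h3 : h.natDegree ≤ (wmT h).natDegree := by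
    have h4 : TD (wmT h).natDegree h := wmT_TD.2 le_rfl
    have h5 := h4 h.natDegree (by rw [hh.coeff_natDegree]; exact one_ne_zero)
    omega
  exact ⟨hg, rfl, wmT_TD.2 (by omega)⟩

private theorem wm_sh_mono (c : K) (a b : ℕ) (e : K) :
    shW c (monomial b (monomial a e)) = C (C e) * (C X + C (C c) * X) ^ a * X ^ b := by
  simp only [shW, coe_eval₂RingHom, eval₂_monomial, RingHom.comp_apply]

private theorem wm_TD_sh_mono (c : K) (a b : ℕ) (e : K) : TD (a + b) (shW c (monomial b (monomial a e))) := by
  rw [wm_sh_mono]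
  have h1 : TD 1 (C X + C (C c) * X : K[X][X]) := by
    refine TD.add (TD_C _ natDegree_X_le) ?_
    have h2 : TD (0 + 1) (C (C c) * X ^ 1 : K[X][X]) := TD.mul (TD_C _ (by rw [natDegree_C])) (TD_X_pow 1)
    rw [pow_one] at h2
    exact h2
  have h3 : TD (0 + 1 * a + b) (C (C e) * (C X + C (C c) * X) ^ a * X ^ b : K[X][X]) :=
    TD.mul (TD.mul (TD_C _ (by rw [natDegree_C])) (TD.pow h1 a)) (TD_X_pow b)
  exact TD.mono h3 (by omega)

/-- Proof. `shW c` sends the monomial `x^a y^b` to `(x + c y)^a y^b` (TD.pow, TD.mul, TD.sum). -/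
theorem TD_shW {n : ℕ} {F : K[X][X]} (c : K) (hF : TD n F) : TD n (shW c F) := by
  have h1 : F = ∑ b ∈ F.support, ∑ a ∈ (F.coeff b).support, monomial b (monomial a ((F.coeff b).coeff a)) := by
    conv_lhs => rw [F.as_sum_support]
    refine Finset.sum_congr rfl fun b _ => ?_
    conv_lhs => rw [(F.coeff b).as_sum_support]
    rw [map_sum]
  rw [h1, map_sum]
  refine TD.sum _ _ fun b hb => ?_
  rw [map_sum]
  refine TD.sum _ _ fun a ha => ?_
  refine TD.mono (wm_TD_sh_mono c a b _) ?_
  have h2 := hF b (mem_support_iff.1 hb)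
  have h3 := le_natDegree_of_mem_supp a ha
  omega

private theorem wm_sh_coeff (c : K) (F : K[X][X]) (d : ℕ) :
    ((shW c F).coeff d).coeff 0 = ∑ a ∈ range (d + 1), (F.coeff (d - a)).coeff a * c ^ a := by
  refine wm_ind (P := fun F => ((shW c F).coeff d).coeff 0 = ∑ a ∈ range (d + 1), (F.coeff (d - a)).coeff a * c ^ a)
    ?_ ?_ F
  · intro f g hf hg
    rw [map_add, coeff_add, coeff_add, hf, hg, ← Finset.sum_add_distrib]
    refine Finset.sum_congr rfl fun a _ => ?_
    rw [coeff_add, coeff_add, add_mul]
  · intro a b e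
    have h1 : ((shW c (monomial b (monomial a e))).coeff d).coeff 0 =
        (mapRingHom (evalRingHom 0) (shW c (monomial b (monomial a e)))).coeff d := by
      rw [coe_mapRingHom, coeff_map, coe_evalRingHom, coeff_zero_eq_eval_zero]
    have h2 : mapRingHom (evalRingHom (0 : K)) (C (C e) * (C X + C (C c) * X) ^ a * X ^ b) =
        monomial (a + b) (e * c ^ a) := by
      rw [map_mul, map_mul, map_pow, map_pow, map_add, map_mul]
      simp only [coe_mapRingHom, map_C, map_X, coe_evalRingHom, eval_C, eval_X, C_0, zero_add]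
      rw [← C_mul_X_pow_eq_monomial, mul_pow, ← C_pow, C_mul, pow_add]
      ring
    rw [h1, wm_sh_mono, h2, coeff_monomial]
    by_cases h3 : a + b = d
    · rw [if_pos h3, Finset.sum_eq_single a]
      · rw [coeff_monomial, if_pos (by omega), coeff_monomial, if_pos rfl]
      · intro a' _ ha'
        rw [coeff_monomial]
        split_ifs
        · rw [coeff_monomial, if_neg (fun h => ha' h.symm), zero_mul]
        · rw [coeff_zero, zero_mul]
      · intro h
        exact absurd (mem_range.2 (by omega)) h
    · rw [if_neg h3]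
      refine (Finset.sum_eq_zero fun a' ha' => ?_).symm
      have h4 := mem_range.1 ha'
      rw [coeff_monomial]
      split_ifs with h5
      · rw [coeff_monomial, if_neg (by omega), zero_mul]
      · rw [coeff_zero, zero_mul]

/-- Proof. Let `d ≤ n` be the largest `a + b` with `F_ab ≠ 0` (so `TD d F`).  The polynomial `q(c) = ∑_{a + b = d} F_ab c^a` is not zero (its coefficients are the `F_(a,d-a)`) and has degree `≤ d ≤ n < p`, so `q(c) ≠ 0` for some `c` of `ZMod p`.  The coefficient `d` (in `y`) of `shW c F` is the constant `q(c)`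
(it is a polynomial in `x` of degree `≤ 0` by TD_shW, and the coefficient of `y^d` in `(x + c y)^a y^b` at `x^0` is `c^a` if `a + b = d`; for `a + b < d` there is none), the coefficients above vanish; multiply by `q(c)⁻¹`. -/
theorem monoW (p : ℕ) [Fact p.Prime] {n : ℕ} (hnp : n < p) {F : (ZMod p)[X][X]} (hF : F ≠ 0) (hT : TD n F) :
    ∃ (c e : ZMod p) (d : ℕ), e ≠ 0 ∧ d ≤ n ∧ Qn d (C (C e) * shW c F) := by
  set d := (wmT F).natDegree with hd
  have hTd : TD d F := wmT_TD.2 le_rfl
  have hdn : d ≤ n := wmT_TD.1 hT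
  set q : (ZMod p)[X] := ∑ a ∈ range (d + 1), monomial a ((F.coeff (d - a)).coeff a) with hq
  have hqd : q.natDegree ≤ d := by
    refine natDegree_sum_le_of_forall_le _ _ fun a ha => ?_
    exact le_trans (natDegree_monomial_le _) (by have := mem_range.1 ha; omega)
  have hqc : ∀ a, a ≤ d → q.coeff a = (F.coeff (d - a)).coeff a := by
    intro a ha
    rw [hq, finsetSum_coeff, Finset.sum_eq_single a]
    · rw [coeff_monomial, if_pos rfl]
    · intro b _ hb
      rw [coeff_monomial, if_neg hb]
    · intro h
      exact absurd (mem_range.2 (by omega)) h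
  have hq0 : q ≠ 0 := by
    intro h0
    have h1 : (wmT F).coeff d = 0 := by
      ext b
      rw [wmT_coeff, coeff_zero]
      by_cases hb : b ≤ d
      · rw [if_pos hb]
        have h2 := hqc (d - b) (by omega)
        rw [h0, coeff_zero, show d - (d - b) = b by omega] at h2
        exact h2.symm
      · rw [if_neg hb]
    exact wmT_ne hF (leadingCoeff_eq_zero.1 h1)
  obtain ⟨c, hc⟩ := Polynomial.exists_eval_ne_zero_of_natDegree_lt_card q hq0 (by
    rw [Cardinal.mk_fintype, ZMod.card]
    exact_mod_cast lt_of_le_of_lt (le_trans hqd hdn) hnp)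
  have hTs : TD d (shW c F) := TD_shW c hTd
  have hev : q.eval c = ((shW c F).coeff d).coeff 0 := by
    rw [wm_sh_coeff, hq, eval_finsetSum]
    exact Finset.sum_congr rfl fun a _ => by rw [eval_monomial]
  have hne : (shW c F).coeff d ≠ 0 := by
    intro h0
    rw [h0, coeff_zero] at hev
    exact hc hev
  have hnd : ((shW c F).coeff d).natDegree = 0 := by
    have := hTs d hne
    omega
  have hco : (shW c F).coeff d = C (q.eval c) := by
    rw [hev]
    exact eq_C_of_natDegree_eq_zero hnd
  have hdeg : (shW c F).natDegree ≤ d := by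
    refine natDegree_le_iff_coeff_eq_zero.2 fun b hb => ?_
    by_contra h0
    have := hTs b h0
    omega
  have hdm : (C (C (q.eval c)⁻¹) * shW c F).natDegree ≤ d := natDegree_C_mul_le _ _ |>.trans hdeg
  have hc1 : (C (C (q.eval c)⁻¹) * shW c F).coeff d = 1 := by
    rw [coeff_C_mul, hco, ← C_mul, inv_mul_cancel₀ hc, C_1]
  refine ⟨c, (q.eval c)⁻¹, d, inv_ne_zero hc, hdn, ?_, ?_, ?_⟩
  · exact monic_of_natDegree_le_of_coeff_eq_one d hdm hc1
  · refine le_antisymm hdm (le_natDegree_of_ne_zero ?_)
    rw [hc1]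
    exact one_ne_zero
  · have h5 : TD (0 + d) (C (C (q.eval c)⁻¹) * shW c F) := TD.mul (TD_C _ (by rw [natDegree_C])) hTs
    rw [zero_add] at h5
    exact h5

end HNW
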