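import Pool.Agent.Lib.MP_10e784_agBW.WM
import Pool.Agent.Lib.MP_10e784_agBW.WE

/-! LEAF WN.  The component of a branch over `F_p` is absolutely irreducible and defined over `F_p`. -/

set_option autoImplicit false

open Classical

namespace HNW

open Finset Polynomial HNQ

/-- Proof. Strong induction on the degree: if `F` is irreducible take it; otherwise `F = a b` with non units; the leading coefficients are units (`F` monic), normalise, both have smaller degree, `φ a * φ b = 0`.  (`F ≠ 1` because `φ 1 = 1`.) -/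
theorem exists_factorW {R S : Type} [CommRing R] [IsDomain R] [CommRing S] [IsDomain S] (φ : R[X] →+* S)
    (F : R[X]) (hF : F.Monic) (h : φ F = 0) : ∃ g : R[X], g.Monic ∧ Irreducible g ∧ g ∣ F ∧ φ g = 0 := by
  obtain ⟨n, hn⟩ : ∃ n : ℕ, F.natDegree = n := ⟨_, rfl⟩
  induction n using Nat.strong_induction_on generalizing F with
  | _ n ih =>
    by_cases hi : Irreducible F
    · exact ⟨F, hF, hi, dvd_rfl, h⟩
    · rw [hF.irreducible_iff_natDegree] at hi
      push Not at hi
      have h1 : F ≠ 1 := by
        intro h1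
        rw [h1, map_one] at h
        exact one_ne_zero h
      obtain ⟨a, b, ha, hb, hab, ha0, hb0⟩ := hi h1
      have hd : F.natDegree = a.natDegree + b.natDegree := by
        rw [← hab, ha.natDegree_mul hb]
      rw [← hab, map_mul, mul_eq_zero] at h
      rcases h with h | h
      · obtain ⟨g, h2, h3, h4, h5⟩ := ih a.natDegree (by omega) a ha h rfl
        exact ⟨g, h2, h3, h4.trans ⟨b, hab.symm⟩, h5⟩
      · obtain ⟨g, h2, h3, h4, h5⟩ := ih b.natDegree (by omega) b hb h rfl
        exact ⟨g, h2, h3, h4.trans ⟨a, by rw [mul_comm, hab]⟩, h5⟩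

/-- A power series which is algebraic over an algebraically closed field is constant. -/
private theorem WN_const {K : Type} [Field K] [IsAlgClosed K] {u : PowerSeries K} {R : K[X]} (hR : R ≠ 0)
    (h : R.eval₂ (algebraMap K (PowerSeries K)) u = 0) : ∃ c : K, u = PowerSeries.C c := by
  have h1 := (IsAlgClosed.splits R).eq_prod_roots
  rw [h1, eval₂_mul, eval₂_C, eval₂_multiset_prod, mul_eq_zero] at h
  rcases h with h | h
  · rw [FaithfulSMul.algebraMap_eq_zero_iff, leadingCoeff_eq_zero] at h
    exact absurd h hR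
  · rw [Multiset.prod_eq_zero_iff, Multiset.map_map, Multiset.mem_map] at h
    obtain ⟨r, -, h2⟩ := h
    rw [Function.comp_apply, eval₂_sub, eval₂_X, eval₂_C, sub_eq_zero] at h2
    exact ⟨r, h2⟩

/-- Proof. Let `K` be algebraically closed and `u, v` power series, not both constant.  Two monic irreducible polynomials `g1, g2` with `g(u, v) = 0` are equal: otherwise `g1 ∤ g2` (two monic associated polynomials are equal) and as in bezT there are `A, B` with `g1 * A + g2 * B = C R`, `R ≠ 0` in `K[X]`; evaluate: `R(u) = 0`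
in `K⟦X⟧`, `R = c ∏ (X - r)`, so `u` is a constant `r`; then `g1(r, v) = 0` with `g1(r, ·)` monic: `v` is a constant.  (Export from WE or reprove: for monic irreducible `g` and `g ∤ G` there are `A, B`, `R ≠ 0` with `g * A + G * B = C R`.) -/
theorem uniqueW {K : Type} [Field K] [IsAlgClosed K] {u v : PowerSeries K}
    (huv : ¬ ((∃ c : K, u = PowerSeries.C c) ∧ ∃ c : K, v = PowerSeries.C c)) {g1 g2 : K[X][X]}
    (h1 : g1.Monic) (h2 : g2.Monic) (i1 : Irreducible g1) (i2 : Irreducible g2)
    (e1 : evB u v g1 = 0) (e2 : evB u v g2 = 0) : g1 = g2 := by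
  by_contra hne
  have hφ : Function.Injective (algebraMap K[X] (FractionRing K[X])) := IsFractionRing.injective _ _
  have hd : ∀ g : K[X][X], g.Monic → Irreducible g → g.natDegree ≠ 0 := by
    intro g hg hi h0
    rw [Polynomial.Monic.natDegree_eq_zero hg] at h0
    exact hi.not_isUnit (by rw [h0]; exact isUnit_one)
  obtain ⟨A, B, -, -, hAB⟩ := exists_mul_add_mul_eq_C_resultant (m := g1.natDegree) (n := g2.natDegree) g1 g2
    le_rfl le_rfl (Or.inl (hd g1 h1 i1))
  have hR0 : resultant g1 g2 g1.natDegree g2.natDegree ≠ 0 := by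
    intro h0
    have h3 : resultant (g1.map (algebraMap K[X] (FractionRing K[X])))
        (g2.map (algebraMap K[X] (FractionRing K[X]))) g1.natDegree g2.natDegree = 0 := by
      rw [resultant_map_map, h0, map_zero]
    have hirr1 : Irreducible (g1.map (algebraMap K[X] (FractionRing K[X]))) :=
      (h1.irreducible_iff_irreducible_map_fraction_map (K := FractionRing K[X])).1 i1
    have hirr2 : Irreducible (g2.map (algebraMap K[X] (FractionRing K[X]))) :=
      (h2.irreducible_iff_irreducible_map_fraction_map (K := FractionRing K[X])).1 i2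
    have h4 : IsCoprime (g1.map (algebraMap K[X] (FractionRing K[X])))
        (g2.map (algebraMap K[X] (FractionRing K[X]))) := by
      rw [hirr1.coprime_iff_not_dvd]
      intro hdvd
      have h5 := hirr1.associated_of_dvd hirr2 hdvd
      have h6 := eq_of_monic_of_associated (h1.map _) (h2.map _) h5
      exact hne (map_injective _ hφ h6)
    have h6 := resultant_ne_zero _ _ h4
    rw [h1.natDegree_map, h2.natDegree_map] at h6
    exact h6 h3
  have h3 := congrArg (evB u v) hAB
  rw [map_add, map_mul, map_mul, e1, e2, zero_mul, zero_mul, add_zero] at h3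
  have h4 : ∀ R : K[X], evB u v (C R) = R.eval₂ (algebraMap K (PowerSeries K)) u := by
    intro R
    unfold evB
    rw [coe_eval₂RingHom, eval₂_C]
    rfl
  rw [h4] at h3
  obtain ⟨c, hc⟩ := WN_const hR0 h3.symm
  refine huv ⟨⟨c, hc⟩, ?_⟩
  refine WN_const (R := g1.map (evalRingHom c)) (h1.map _).ne_zero ?_
  rw [← e1, eval₂_map]
  unfold evB
  rw [coe_eval₂RingHom]
  have h5 : (algebraMap K (PowerSeries K)).comp (evalRingHom c) =
      eval₂RingHom (algebraMap K (PowerSeries K)) u := by
    refine Polynomial.ringHom_ext' (RingHom.ext fun a => ?_) ?_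
    · simp
    · rw [hc]
      simp
  rw [h5]

/-- Evaluation and extension of scalars. -/
private theorem WN_map {k K : Type} [Field k] [Field K] (ι : k →+* K) (u v : PowerSeries k) (G : k[X][X]) :
    evB (PowerSeries.map ι u) (PowerSeries.map ι v) (G.map (mapRingHom ι)) =
      PowerSeries.map ι (evB u v G) := by
  have h : (evB (PowerSeries.map ι u) (PowerSeries.map ι v)).comp (mapRingHom (mapRingHom ι)) =
      (PowerSeries.map ι).comp (evB u v) := by
    refine hom_ext2 (fun a => ?_) ?_ ?_
    · rw [RingHom.comp_apply, RingHom.comp_apply, evB_CC]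
      have : mapRingHom (mapRingHom ι) (C (C a)) = C (C (ι a)) := by simp
      rw [this, evB_CC]
      show PowerSeries.C (ι a) = PowerSeries.map ι (PowerSeries.C a)
      rw [PowerSeries.map_C]
    · rw [RingHom.comp_apply, RingHom.comp_apply, evB_CX]
      have : mapRingHom (mapRingHom ι) (C X) = C X := by simp
      rw [this, evB_CX]
    · rw [RingHom.comp_apply, RingHom.comp_apply, evB_X]
      have : mapRingHom (mapRingHom ι) X = X := by simp
      rw [this, evB_X]
  exact congrArg (fun φ : k[X][X] →+* PowerSeries K => φ G) h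

private theorem WN_inj {k K : Type} [Field k] [Field K] (ι : k →+* K) {u w : PowerSeries k}
    (h : PowerSeries.map ι u = PowerSeries.map ι w) : u = w := by
  refine PowerSeries.ext fun n => ι.injective ?_
  have h1 := congrArg (PowerSeries.coeff n) h
  rw [PowerSeries.coeff_map, PowerSeries.coeff_map] at h1
  exact h1

private theorem WN_cst {k K : Type} [Field k] [Field K] (ι : k →+* K) {u : PowerSeries k}
    (h : ∃ c : K, PowerSeries.map ι u = PowerSeries.C c) : ∃ c : k, u = PowerSeries.C c := by
  obtain ⟨c, hc⟩ := h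
  refine ⟨PowerSeries.coeff 0 u, PowerSeries.ext fun n => ?_⟩
  have h1 := congrArg (PowerSeries.coeff n) hc
  rw [PowerSeries.coeff_map, PowerSeries.coeff_C] at h1
  rw [PowerSeries.coeff_C]
  by_cases hn : n = 0
  · rw [if_pos hn, hn]
  · rw [if_neg hn] at h1 ⊢
    exact ι.injective (by rw [h1, map_zero])

/-- Proof. `K` = algebraic closure, `u', v'` the images of `u, v` (`PowerSeries.map`); `evB u' v' (fK p F) = map (evB u v F) = 0`.  exists_factorW: `g` monic irreducible, `g ∣ fK p F`, `evB u' v' g = 0`.  Frobenius `σ = frobenius K p` is an automorphism (`frobeniusEquiv`); `g.map (mapRingHom σ)` is monic, irreducible and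
vanishes at `(u', v')` (their coefficients lie in `ZMod p`, `σ` fixes them), so it is `g` (uniqueW); the coefficients are fixed by `σ`: `g = fK p g0` (frob_fixed; coefficientwise lift: `Polynomial.lifts`/`mem_lifts`), `g0` monic.  `g0 ∣ F`: `fK p (F %ₘ g0) = (fK p F) %ₘ g = 0` (`map_modByMonic`), injectivity.
`evB u v g0 = 0` by injectivity of `PowerSeries.map`.  `Qn` by factorW, `m = natDegree g0 ≥ 1` (irreducible), `≤ n`. -/
theorem compW (p : ℕ) [Fact p.Prime] {n : ℕ} {F : (ZMod p)[X][X]} (hF : Qn n F) (u v : PowerSeries (ZMod p))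
    (huv : ¬ ((∃ c : ZMod p, u = PowerSeries.C c) ∧ ∃ c : ZMod p, v = PowerSeries.C c))
    (h0 : evB u v F = 0) : ∃ (g : (ZMod p)[X][X]) (m : ℕ), 1 ≤ m ∧ m ≤ n ∧ Qn m g ∧ Irreducible (fK p g) ∧
      g ∣ F ∧ evB u v g = 0 := by
  obtain ⟨ι, hι⟩ : ∃ ι : ZMod p →+* AlgebraicClosure (ZMod p),
    ι = algebraMap (ZMod p) (AlgebraicClosure (ZMod p)) := ⟨_, rfl⟩
  have hfK : ∀ G : (ZMod p)[X][X], fK p G = G.map (mapRingHom ι) := by
    intro G
    rw [hι]
    rfl
  have hιi : Function.Injective ι := ι.injective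
  have hmi : Function.Injective (mapRingHom ι) := by
    intro a b hab
    exact map_injective ι hιi hab
  obtain ⟨g, g1, g2, g3, g4⟩ := exists_factorW (evB (PowerSeries.map ι u) (PowerSeries.map ι v))
    (fK p F) (by rw [hfK]; exact hF.mo.map _) (by rw [hfK, WN_map, h0, map_zero])
  have hnc : ¬ ((∃ c, PowerSeries.map ι u = PowerSeries.C c) ∧ ∃ c, PowerSeries.map ι v = PowerSeries.C c) :=
    fun h => huv ⟨WN_cst ι h.1, WN_cst ι h.2⟩
  -- the Frobenius
  obtain ⟨σ, hσ⟩ : ∃ σ : AlgebraicClosure (ZMod p) ≃+* AlgebraicClosure (ZMod p), ∀ x, σ x = x ^ p :=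
    ⟨frobeniusEquiv _ p, fun x => frobeniusEquiv_apply _ p x⟩
  have hσι : ∀ w : PowerSeries (ZMod p),
      PowerSeries.map (σ : AlgebraicClosure (ZMod p) →+* AlgebraicClosure (ZMod p)) (PowerSeries.map ι w) =
        PowerSeries.map ι w := by
    intro w
    refine PowerSeries.ext fun n => ?_
    rw [PowerSeries.coeff_map, PowerSeries.coeff_map]
    show σ (ι _) = ι _
    rw [hσ, ← map_pow, ZMod.pow_card]
  have e1 := WN_map (σ : AlgebraicClosure (ZMod p) →+* AlgebraicClosure (ZMod p))
    (PowerSeries.map ι u) (PowerSeries.map ι v) g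
  rw [hσι, hσι, g4, map_zero] at e1
  have i1 : Irreducible (g.map (mapRingHom (σ : AlgebraicClosure (ZMod p) →+* AlgebraicClosure (ZMod p)))) := by
    have h1 := (MulEquiv.irreducible_iff (mapEquiv (mapEquiv σ)) (x := g)).2 g2
    exact h1
  have h1 := uniqueW hnc (g1.map _) g1 i1 g2 e1 g4
  have hc : ∀ a b, ∃ c : ZMod p, ι c = (g.coeff a).coeff b := by
    intro a b
    have h2 := congrArg (fun G : (AlgebraicClosure (ZMod p))[X][X] => (G.coeff a).coeff b) h1
    simp only [coeff_map, coe_mapRingHom] at h2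
    have h3 : ((g.coeff a).coeff b) ^ p = (g.coeff a).coeff b := by
      rw [← hσ]
      exact h2
    rw [hι]
    exact frob_fixed p _ h3
  obtain ⟨g0, hg0⟩ : ∃ g0 : (ZMod p)[X][X], fK p g0 = g := by
    have h2 : g ∈ lifts (mapRingHom ι) := by
      rw [lifts_iff_coeff_lifts]
      intro a
      have h3 : g.coeff a ∈ lifts ι := by
        rw [lifts_iff_coeff_lifts]
        intro b
        obtain ⟨c, hc'⟩ := hc a b
        exact ⟨c, hc'⟩
      obtain ⟨q, hq⟩ := (mem_lifts _).1 h3
      exact ⟨q, hq⟩
    obtain ⟨q, hq⟩ := (mem_lifts _).1 h2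
    exact ⟨q, by rw [hfK, hq]⟩
  have hm : g0.Monic := by
    rw [← hg0, hfK] at g1
    exact (hmi.monic_map_iff).2 g1
  have hd : g0 ∣ F := by
    rw [← hg0, hfK, hfK] at g3
    exact (map_dvd_map _ hmi hm).1 g3
  have he : evB u v g0 = 0 := by
    refine WN_inj ι ?_
    rw [map_zero, ← WN_map, ← hfK, hg0, g4]
  have hi : Irreducible (fK p g0) := by rw [hg0]; exact g2
  refine ⟨g0, g0.natDegree, ?_, ?_, factorW hF hm hd, hi, hd, he⟩
  · by_contra h2
    have h3 : g0.natDegree = 0 := by omega
    rw [Polynomial.Monic.natDegree_eq_zero hm] at h3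
    refine hi.not_isUnit ?_
    rw [h3, hfK, Polynomial.map_one]
    exact isUnit_one
  · rw [← hF.dg]
    exact natDegree_le_of_dvd hd hF.mo.ne_zero

end HNW
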