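import Pool.Agent.Lib.MP_10e784_agBW.WN
import Pool.Agent.Lib.MP_10e784_agBW.WK

/-! LEAF WO.  Block W, final theorem. -/

set_option autoImplicit false

open Classical

namespace HNW

open Finset Polynomial HNQ

private theorem WO_sh {k : Type} [Field k] (c x y : k) (F : k[X][X]) :
    (shW c F).evalEval x y = F.evalEval (x + c * y) y := by
  rw [← evB_self, evB_sh, ← evB_self]
  rfl

private theorem WO_dvd {k : Type} [Field k] {g F : k[X][X]} (h : g ∣ F) {x y : k} (h0 : g.evalEval x y = 0) :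
    F.evalEval x y = 0 := by
  obtain ⟨a, rfl⟩ := h
  rw [← evB_self] at h0 ⊢
  rw [map_mul, h0, zero_mul]

/-- **Block W.**  Proof. monoW: `F' = C (C e) * shW c F` is `Qn d`.  `u' = u - c v`, `v' = v`: `evB u' v' F' = 0` (evB_sh), not both constant.  compW: `g`, `Qn m0 g`, `m0 ≤ n`.  `Z` = the image of the zeros of `g` under the injective map `(x, y) ↦ (x + c y, y)`: zeros of `F` (evB_self, evB_sh, `g ∣ F'`, `e ≠ 0`).  stepW: `3 p ≤ 4 #Z` (`m0^6 ≤ n^6`).
For `G`: `G' = shW c G`, `TD m G'` (TD_shW), `evB u' v' G' = evB u v G ≠ 0`, so `g ∤ G'`; `g` is irreducible over `ZMod p` (`Monic.irreducible_of_irreducible_map`); bezT over `ZMod p`: the common zeros of `g` and `G'` lie over at most `(m0 + m)^2` values `x`, at most `m0` over each (roots_le). -/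
theorem branch_pointsW (p : ℕ) [Fact p.Prime] {n : ℕ} (hn : 1 ≤ n) (hp : 1000 * n ^ 6 ≤ p)
    {F : (ZMod p)[X][X]} (hF : F ≠ 0) (hT : TD n F) (u v : PowerSeries (ZMod p))
    (huv : ¬ ((∃ c : ZMod p, u = PowerSeries.C c) ∧ ∃ c : ZMod p, v = PowerSeries.C c))
    (h0 : evB u v F = 0) :
    ∃ Z : Finset (ZMod p × ZMod p), 3 * p ≤ 4 * Z.card ∧ (∀ z ∈ Z, F.evalEval z.1 z.2 = 0) ∧
      ∀ (m : ℕ) (G : (ZMod p)[X][X]), TD m G → evB u v G ≠ 0 →
        (Z.filter fun z => G.evalEval z.1 z.2 = 0).card ≤ n * (n + m) ^ 2 := by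
  have hnp : n < p := by
    have h1 : n ≤ n ^ 6 := Nat.le_self_pow (by norm_num) n
    omega
  obtain ⟨c, e, d, he, hdn, hQ⟩ := monoW p hnp hF hT
  set F' : (ZMod p)[X][X] := C (C e) * shW c F with hF'
  set u' : PowerSeries (ZMod p) := u - algebraMap (ZMod p) (PowerSeries (ZMod p)) c * v with hu'
  have hsh : ∀ G : (ZMod p)[X][X], evB u' v (shW c G) = evB u v G := by
    intro G
    rw [evB_sh, hu', sub_add_cancel]
  have h0' : evB u' v F' = 0 := by
    rw [hF', map_mul, hsh, h0, mul_zero]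
  have huv' : ¬ ((∃ c : ZMod p, u' = PowerSeries.C c) ∧ ∃ c : ZMod p, v = PowerSeries.C c) := by
    rintro ⟨⟨a, ha⟩, ⟨b, hb⟩⟩
    refine huv ⟨⟨a + c * b, ?_⟩, ⟨b, hb⟩⟩
    have h1 : u = u' + algebraMap (ZMod p) (PowerSeries (ZMod p)) c * v := by rw [hu', sub_add_cancel]
    rw [h1, ha, hb, map_add, map_mul]
    rfl
  obtain ⟨g, m0, hm0, hm0d, hg, hirr, hgF, hgv⟩ := compW p hQ u' v huv' h0'
  have hm0n : m0 ≤ n := hm0d.trans hdn
  have hst := stepW p hm0 ((Nat.mul_le_mul_left _ (Nat.pow_le_pow_left hm0n 6)).trans hp) hg hirr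
  set A : Finset (ZMod p × ZMod p) := univ.filter fun q : ZMod p × ZMod p => g.evalEval q.1 q.2 = 0 with hA
  set φ : ZMod p × ZMod p → ZMod p × ZMod p := fun q => (q.1 + c * q.2, q.2) with hφ
  have hinj : Function.Injective φ := by
    rintro ⟨x, y⟩ ⟨x', y'⟩ h
    simp only [hφ, Prod.mk.injEq] at h
    obtain ⟨h1, h2⟩ := h
    subst h2
    rw [add_left_inj] at h1
    rw [h1]
  have hirr' : Irreducible g := hg.mo.irreducible_of_irreducible_map _ _ hirr
  refine ⟨A.image φ, ?_, ?_, ?_⟩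
  · rw [card_image_of_injective _ hinj]
    exact hst
  · intro z hz
    obtain ⟨q, hq, rfl⟩ := mem_image.1 hz
    have h1 : g.evalEval q.1 q.2 = 0 := (mem_filter.1 hq).2
    have h2 := WO_dvd hgF h1
    have h3 : F'.evalEval q.1 q.2 = e * F.evalEval (q.1 + c * q.2) q.2 := by
      rw [hF', ← WO_sh, ← evB_self, map_mul, evB_CC, evB_self]
      rfl
    rw [h3] at h2
    exact (mul_eq_zero.1 h2).resolve_left he
  · intro m G hGT hG
    have hnd : ¬ g ∣ shW c G := by
      rintro ⟨a, ha⟩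
      apply hG
      rw [← hsh, ha, map_mul, hgv, zero_mul]
    obtain ⟨T, hTc, hT⟩ := bezT hg hirr' (TD_shW c hGT) hnd
    choose S hSc hS using fun x => roots_le hg x
    have hsub : ((A.image φ).filter fun z => G.evalEval z.1 z.2 = 0) ⊆
        (T.biUnion fun x => (S x).image fun y => (x, y)).image φ := by
      intro z hz
      obtain ⟨hz1, hz2⟩ := mem_filter.1 hz
      obtain ⟨q, hq, rfl⟩ := mem_image.1 hz1
      have h1 : g.evalEval q.1 q.2 = 0 := (mem_filter.1 hq).2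
      have h2 : (shW c G).evalEval q.1 q.2 = 0 := by
        rw [WO_sh]
        exact hz2
      refine mem_image_of_mem _ (mem_biUnion.2 ⟨q.1, hT _ _ h1 h2, mem_image.2 ⟨q.2, hS _ _ h1, rfl⟩⟩)
    calc ((A.image φ).filter fun z => G.evalEval z.1 z.2 = 0).card
        ≤ ((T.biUnion fun x => (S x).image fun y => (x, y)).image φ).card := card_le_card hsub
      _ ≤ (T.biUnion fun x => (S x).image fun y => (x, y)).card := card_image_le
      _ ≤ ∑ x ∈ T, ((S x).image fun y => (x, y)).card := card_biUnion_le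
      _ ≤ ∑ _x ∈ T, m0 := sum_le_sum fun x _ => card_image_le.trans (hSc x)
      _ = T.card * m0 := by rw [sum_const, smul_eq_mul]
      _ ≤ (m0 + m) ^ 2 * m0 := Nat.mul_le_mul_right _ hTc
      _ ≤ (n + m) ^ 2 * n := Nat.mul_le_mul (Nat.pow_le_pow_left (by omega) 2) hm0n
      _ = n * (n + m) ^ 2 := mul_comm _ _

end HNW
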